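import Pool.Agent.Lib.MP_562b47_mp.EC.Share
import Pool.Agent.Lib.MP_562b47_mp.WO.Coord

/-!
MP_562b47, section 5, part 3: in the worlds where class `m` is thinned with probability `t`, the
total share of the active gadgets of class `m` is at most `t Lc (D + |ι|)`.
-/

open Matrix Finset MeasureTheory

set_option linter.unusedSectionVars false

namespace Pool.Agent.Lib.MP_562b47_mp.EC

open Pool.Agent.Lib.MP_562b47_mp.AL Pool.Agent.Lib.MP_562b47_mp Pool.Agent.Lib.MP_562b47_mp.WO

variable {ι 𝔅 κ' : Type*} [Fintype ι] [DecidableEq ι] [Fintype 𝔅] [DecidableEq 𝔅] [Fintype κ']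

/-- the weight of the other blocks -/
noncomputable def wtr (S : Sys ι 𝔅) (A : Matrix ι ι ℝ) (p : 𝔅 → ℝ) (V : ι → ℝ) (b : 𝔅)
    (Ac : Finset 𝔅) : ℝ :=
  (∏ b' ∈ Ac, p b' * S.hh A b' V) * ∏ b' ∈ (S.Comp V).erase b \ Ac, (1 - p b' * S.hh A b' V)

variable {S : Sys ι 𝔅} {A : Matrix ι ι ℝ} {p : 𝔅 → ℝ} {V : ι → ℝ} {Ac : Finset 𝔅} {b : 𝔅}

theorem wt_insert (hA : Ac ⊆ (S.Comp V).erase b) :
    S.wt A p V (insert b Ac) = p b * S.hh A b V * wtr S A p V b Ac := by
  have hb : b ∉ Ac := fun h => (mem_erase.mp (hA h)).1 rfl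
  have h1 : S.Comp V \ insert b Ac = (S.Comp V).erase b \ Ac := by
    ext x
    simp only [mem_sdiff, mem_insert, mem_erase]
    tauto
  unfold Sys.wt wtr
  rw [Finset.prod_insert hb, h1]
  ring

theorem wt_not (hb : b ∈ S.Comp V) (hA : Ac ⊆ (S.Comp V).erase b) :
    S.wt A p V Ac = (1 - p b * S.hh A b V) * wtr S A p V b Ac := by
  have hb' : b ∉ Ac := fun h => (mem_erase.mp (hA h)).1 rfl
  have h1 : S.Comp V \ Ac = insert b ((S.Comp V).erase b \ Ac) := by
    ext x
    simp only [mem_sdiff, mem_insert, mem_erase]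
    by_cases hx : x = b
    · subst hx; simp [hb, hb']
    · simp [hx]
  unfold Sys.wt wtr
  rw [h1, Finset.prod_insert (by simp)]
  ring

theorem wtr_nonneg (hS : Good S A) (hp : Adm p) (hA : Ac ⊆ (S.Comp V).erase b) :
    0 ≤ wtr S A p V b Ac := by
  unfold wtr
  apply mul_nonneg
  · exact Finset.prod_nonneg fun b' hb' => mul_nonneg (hp b').1
      (S.hh_nonneg hS (mem_of_mem_erase (hA hb')))
  · refine Finset.prod_nonneg fun b' hb' => ?_
    have hb'' : b' ∈ S.Comp V := mem_of_mem_erase (Finset.mem_sdiff.mp hb').1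
    have h1 := S.hh_nonneg hS hb''
    have h2 := S.hh_le hS hb''
    have h3 : p b' * S.hh A b' V ≤ 1 * S.hh A b' V := mul_le_mul_of_nonneg_right (hp b').2 h1
    linarith

theorem wtr_update (hb : b ∈ S.Comp V) (v : ℝ) (hA : Ac ⊆ (S.Comp V).erase b) :
    wtr S A p (Function.update V (S.w b) v) b Ac = wtr S A p V b Ac := by
  have hoff : ∀ x, x ∉ S.Q b → Function.update V (S.w b) v x = V x := by
    intro x hx
    rw [Function.update_of_ne]
    rintro rfl
    exact hx (S.w_mem b)
  have h1 : ∀ b' ∈ (S.Comp V).erase b,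
      S.hh A b' (Function.update V (S.w b) v) = S.hh A b' V := by
    intro b' hb'
    exact S.hh_off A hb (mem_of_mem_erase hb') (mem_erase.mp hb').1 hoff
  have e1 : ∏ b' ∈ Ac, p b' * S.hh A b' (Function.update V (S.w b) v) =
      ∏ b' ∈ Ac, p b' * S.hh A b' V :=
    Finset.prod_congr rfl fun b' hb' => by rw [h1 b' (hA hb')]
  have e2 : ∏ b' ∈ (S.Comp V).erase b \ Ac, (1 - p b' * S.hh A b' (Function.update V (S.w b) v)) =
      ∏ b' ∈ (S.Comp V).erase b \ Ac, (1 - p b' * S.hh A b' V) :=
    Finset.prod_congr rfl fun b' hb' => by rw [h1 b' (Finset.mem_sdiff.mp hb').1]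
  unfold wtr
  rw [S.Comp_update_w hb, e1, e2]

/-- splitting the sum over the active sets according to the activity of `b` -/
theorem Ei_split (hb : b ∈ S.Comp V) (F : Finset 𝔅 → (ι → ℝ) → ℝ) :
    S.Ei A p F V = ∑ Ac ∈ ((S.Comp V).erase b).powerset, wtr S A p V b Ac *
      ((1 - p b * S.hh A b V) * F Ac V + p b * S.hh A b V * F (insert b Ac) V) := by
  unfold Sys.Ei
  conv_lhs => rw [← Finset.insert_erase hb]
  rw [Finset.sum_powerset_insert (notMem_erase _ _), ← Finset.sum_add_distrib]
  refine Finset.sum_congr rfl fun Ac hA => ?_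
  have hA' := Finset.mem_powerset.mp hA
  rw [wt_insert hA', wt_not hb hA']
  ring

/-- hypotheses on the geometry of class `m` -/
structure EHyp (S : Sys ι 𝔅) (A : Matrix ι ι ℝ) (ξ : κ' → ι → ℝ) (m : ℕ) (a dm : ℝ) : Prop where
  /-- the centre is coupled only to the inner block -/
  sepw : ∀ b, S.cls b = m → ∀ y, y ∉ S.inn b → y ≠ S.w b → A (S.w b) y = 0
  /-- the background in the inner block does not increase the coupling too much -/
  phc : ∀ b V, S.cls b = m → S.comp b V → ∑ l ∈ S.L b, ‖phc A (S.inn b) (S.w b)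
    (fun x => (V x : ℂ) - (a : ℂ) * Complex.I) l‖ ^ 2 ≤ 2 * S.gg A b V * S.lw m
  /-- the diameter -/
  diam : ∀ b, S.cls b = m → ∀ x ∈ S.Q b, ff ξ x (S.w b) ≤ dm
  dm_nonneg : 0 ≤ dm

section main

variable {ξ : κ' → ι → ℝ} {m : ℕ} {a dm : ℝ}

/-- the constant for one block -/
noncomputable def C0 (S : Sys ι 𝔅) (m : ℕ) (a dm : ℝ) (b : 𝔅) : ℝ :=
  2 * dm + 8 * S.lw m * ((S.L b).card * (dm / a))

/-- the coefficient of the shares of the port sites -/
noncomputable def C1 (S : Sys ι 𝔅) (m : ℕ) (a : ℝ) : ℝ := 4 * KC * S.lw m / a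

theorem C1_nonneg (S : Sys ι 𝔅) (m : ℕ) (ha : 0 < a) : 0 ≤ C1 S m a := by
  unfold C1 KC
  have := S.lw_pos m
  positivity

theorem C0_nonneg (S : Sys ι 𝔅) (m : ℕ) (ha : 0 < a) (hdm : 0 ≤ dm) (b : 𝔅) :
    0 ≤ C0 S m a dm b := by
  unfold C0
  have := S.lw_pos m
  positivity

theorem L_ne_w {l : ι} (hl : l ∈ S.L b) : l ≠ S.w b := by
  rintro rfl
  exact S.w_not b hl

/-- the value at the port sites -/
theorem gam_port (hA : Ac ⊆ S.Comp V) (hb : b ∈ Ac) (hm : S.cls b = m) {l : ι} (hl : l ∈ S.L b) :
    gam (S.uA A m a Ac V) l = a := by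
  unfold gam
  rw [S.uA_inn hA (hA hb) (S.L_sub b hl) (L_ne_w hl), S.bk_low (hA hb) (le_of_eq hm) (S.L_sub b hl)]
  simp

/-- the share of an active gadget against the shares in the inactive world -/
theorem share_block (hS : Good S A) (hE : EHyp S A ξ m a dm) (ha : 0 < a) (hm : S.cls b = m)
    (hb : b ∈ S.Comp V) (hA : Ac ⊆ (S.Comp V).erase b) :
    share A ξ (S.uA A m a (insert b Ac) V) (S.w b) ≤ C0 S m a dm b + C1 S m a * ∑ l ∈ S.L b,
      ∫ v : ℝ, SL.ff (S.gg A b V) S.r v *
        share A ξ (S.uA A m a Ac (Function.update V (S.w b) (S.ze A b V + v))) l := by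
  set U := insert b Ac with hU
  have hbU : b ∈ U := mem_insert_self _ _
  have hUC : U ⊆ S.Comp V := by
    intro x hx
    rcases mem_insert.mp hx with h | h
    · rw [h]; exact hb
    · exact mem_of_mem_erase (hA h)
  have hbc := (S.mem_Comp).mp hb
  have hUe : U.erase b = Ac := by
    rw [hU, erase_insert]
    exact fun h => (mem_erase.mp (hA h)).1 rfl
  set u := S.uA A m a U V with hu'
  have hloss : Loss u := S.uA_loss hS ha hUC
  have huw : u (S.w b) = (S.ze A b V : ℂ) - (S.gg A b V : ℂ) * Complex.I - (a : ℂ) * Complex.I := by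
    rw [hu', S.uA_w hUC hbU (le_of_eq hm)]
    push_cast
    ring
  have hself : u = Function.update u (S.w b)
      ((S.ze A b V : ℂ) - (S.gg A b V : ℂ) * Complex.I - (a : ℂ) * Complex.I) := by
    rw [← huw, Function.update_eq_self]
  have hwT : S.w b ∉ S.inn b := by
    rw [S.mem_inn]
    tauto
  have hLT : ∀ x ∈ S.L b, x ∉ S.inn b ∧ x ≠ S.w b := by
    intro x hx
    constructor
    · rw [S.mem_inn]
      tauto
    · rintro rfl
      exact S.w_not b hx
  have hsep : ∀ x ∈ S.inn b, ∀ y, y ∉ S.inn b → y ≠ S.w b → y ∉ S.L b → A x y = 0 := by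
    intro x hx y hy hyw hyL
    refine hS.sep b x ?_ y ?_
    · exact (S.mem_qi).mpr ((S.mem_inn).mp hx).2
    · intro hyQ
      exact hy ((S.mem_inn).mpr ⟨hyw, hyQ, hyL⟩)
  have hP : ∑ l ∈ S.L b, ‖EC.phc A (S.inn b) (S.w b) u l‖ ^ 2 ≤
      2 * S.gg A b V * S.lw m := by
    have h1 : ∀ x ∈ S.inn b, u x = (fun x => (V x : ℂ) - (a : ℂ) * Complex.I) x := by
      intro x hx
      rw [hu', S.uA_inn hUC (hUC hbU) (S.inn_sub hx) ((S.mem_inn).mp hx).1,
        S.bk_low (hUC hbU) (le_of_eq hm) (S.inn_sub hx)]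
    simp_rw [phc_congr A (S.w b) h1]
    exact hE.phc b V hm hbc
  have key := share_act_le (A := A) (T := S.inn b) (w := S.w b) hS.symm (hloss.off _) ξ
    (S.ze A b V) ha (hS.g_pos b V hbc) (hS.g_le b V hbc) (S.lw_pos m).le hwT (L := S.L b) hLT hsep
    (fun y hy hyw => hE.sepw b hm y hy hyw) hP
    (fun x hx => hE.diam b hm x (S.inn_sub hx)) (fun l hl => hE.diam b hm l (S.L_sub b hl))
    hE.dm_nonneg (fun l hl => gam_port hUC hbU hm hl)
  rw [← hself] at key
  refine key.trans (le_of_eq ?_)
  unfold C0 C1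
  congr 1
  congr 1
  refine Finset.sum_congr rfl fun l hl => ?_
  refine integral_congr_ae (Filter.Eventually.of_forall fun v => ?_)
  simp only
  congr 2
  -- the potential of the inactive world
  have hb'' : b ∈ S.Comp (Function.update V (S.w b) (S.ze A b V + v)) := by
    rw [S.Comp_update_w hb]; exact hb
  have hUC' : U ⊆ S.Comp (Function.update V (S.w b) (S.ze A b V + v)) := by
    rw [S.Comp_update_w hb]; exact hUC
  have h2 := S.uA_erase (A := A) (m := m) (a := a) hUC' hbU
  rw [hUe, S.uA_update_w hUC hbU, Function.update_self, ← hu'] at h2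
  rw [h2]
  push_cast
  rfl

/-- the comparison functional: the shares of the port sites of an inactive block -/
noncomputable def Gb (S : Sys ι 𝔅) (A : Matrix ι ι ℝ) (ξ : κ' → ι → ℝ) (m : ℕ) (a dm : ℝ) (b : 𝔅)
    (Ac : Finset 𝔅) (V : ι → ℝ) : ℝ :=
  C0 S m a dm b + C1 S m a * ∑ l ∈ S.L b, share A ξ (S.uA A m a Ac V) l

open Classical in
/-- the comparison functional with the indicator that `b` is complete and not active -/
noncomputable def Gi (S : Sys ι 𝔅) (A : Matrix ι ι ℝ) (ξ : κ' → ι → ℝ) (m : ℕ) (a dm : ℝ) (b : 𝔅)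
    (Ac : Finset 𝔅) (V : ι → ℝ) : ℝ :=
  if S.comp b V ∧ b ∉ Ac then Gb S A ξ m a dm b Ac V else 0

theorem Gi_pos (h : S.comp b V ∧ b ∉ Ac) : Gi S A ξ m a dm b Ac V = Gb S A ξ m a dm b Ac V := by
  unfold Gi
  rw [if_pos h]

theorem Gi_neg (h : ¬ (S.comp b V ∧ b ∉ Ac)) : Gi S A ξ m a dm b Ac V = 0 := by
  unfold Gi
  rw [if_neg h]

theorem bdd_Gb (hS : Good S A) (ξ : κ' → ι → ℝ) (m : ℕ) (ha : 0 < a) (dm : ℝ) (b : 𝔅) :
    Sys.Bdd S (Gb S A ξ m a dm b) := by
  unfold Gb
  exact Sys.Bdd.add S (Sys.Bdd.const S _) (Sys.Bdd.mul_const S (Sys.Bdd.sum S _ fun l _ =>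
    S.bdd_share hS ξ m ha l) _)

theorem bdd_Gi (hS : Good S A) (ξ : κ' → ι → ℝ) (m : ℕ) (ha : 0 < a) (dm : ℝ) (b : 𝔅) :
    Sys.Bdd S (Gi S A ξ m a dm b) := by
  have h := bdd_Gb (S := S) (A := A) hS ξ m ha dm b
  obtain ⟨C, hC⟩ := h.bdd
  refine ⟨fun Ac => ?_, |C|, fun V Ac hA => ?_⟩
  · by_cases hb : b ∈ Ac
    · have : Gi S A ξ m a dm b Ac = fun _ => 0 := by
        funext V
        exact Gi_neg fun h => h.2 hb
      rw [this]
      exact measurable_const
    · have : Gi S A ξ m a dm b Ac =
          Set.indicator {V : ι → ℝ | S.comp b V} (Gb S A ξ m a dm b Ac) := by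
        funext V
        by_cases hc : S.comp b V
        · rw [Gi_pos ⟨hc, hb⟩, Set.indicator_of_mem]
          exact hc
        · rw [Gi_neg (fun h => hc h.1), Set.indicator_of_notMem]
          exact hc
      rw [this]
      exact (h.meas Ac).indicator (S.measurableSet_comp b)
  · by_cases hc : S.comp b V ∧ b ∉ Ac
    · rw [Gi_pos hc]
      exact (hC V Ac hA).trans (le_abs_self _)
    · rw [Gi_neg hc, abs_zero]
      exact abs_nonneg _

theorem Gb_nonneg (hS : Good S A) (ha : 0 < a) (hdm : 0 ≤ dm) (hA : Ac ⊆ S.Comp V) :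
    0 ≤ Gb S A ξ m a dm b Ac V := by
  unfold Gb
  exact add_nonneg (C0_nonneg S m ha hdm b) (mul_nonneg (C1_nonneg S m ha)
    (Finset.sum_nonneg fun l _ => share_nonneg ξ (S.uA_loss hS ha hA) l))

/-- resampling the potential at the centre of `b` -/
theorem resample (hS : Good S A) (hE : EHyp S A ξ m a dm) (ha : 0 < a) (hm : S.cls b = m)
    (hp : Adm p)
    (V : ι → ℝ) :
    ∫ v, S.Ei A p (fun Ac V => if b ∈ Ac then share A ξ (S.uA A m a Ac V) (S.w b) else 0)
        (Function.update V (S.w b) v) ∂(unif S.c) ≤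
      ∫ v, p b * S.Ei A p (Gi S A ξ m a dm b) (Function.update V (S.w b) v) ∂(unif S.c) := by
  have := unif_prob S.c_pos
  by_cases hb : b ∈ S.Comp V
  swap
  · -- `b` is not complete: both sides vanish
    have h0 : ∀ v, b ∉ S.Comp (Function.update V (S.w b) v) := by
      intro v h
      rw [S.mem_Comp, S.comp_update_w, ← S.mem_Comp] at h
      exact hb h
    have h1 : ∀ v, S.Ei A p (fun Ac V => if b ∈ Ac then
        share A ξ (S.uA A m a Ac V) (S.w b) else 0) (Function.update V (S.w b) v) = 0 := by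
      intro v
      unfold Sys.Ei
      refine Finset.sum_eq_zero fun Ac hA => ?_
      have h3 : b ∉ Ac := fun h => h0 v (Finset.mem_powerset.mp hA h)
      simp only [if_neg h3, mul_zero]
    have h2 : ∀ v, S.Ei A p (Gi S A ξ m a dm b) (Function.update V (S.w b) v) = 0 := by
      intro v
      unfold Sys.Ei
      refine Finset.sum_eq_zero fun Ac _ => ?_
      rw [Gi_neg fun h => h0 v ((S.mem_Comp).mpr h.1), mul_zero]
    simp only [h1, h2, mul_zero, le_refl]
  · -- `b` is complete
    have hbc := (S.mem_Comp).mp hb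
    have hg := hS.g_pos b V hbc
    have hgr := hS.g_le b V hbc
    have hC : ∀ v, S.Comp (Function.update V (S.w b) v) = S.Comp V := fun v => S.Comp_update_w hb v
    have hbv : ∀ v, b ∈ S.Comp (Function.update V (S.w b) v) := fun v => by rw [hC v]; exact hb
    -- the left side
    have h1 : ∀ v, S.Ei A p (fun Ac V => if b ∈ Ac then
        share A ξ (S.uA A m a Ac V) (S.w b) else 0) (Function.update V (S.w b) v) =
        ∑ Ac ∈ ((S.Comp V).erase b).powerset, wtr S A p V b Ac *
          (p b * S.hh A b (Function.update V (S.w b) v) *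
            share A ξ (S.uA A m a (insert b Ac) V) (S.w b)) := by
      intro v
      rw [Ei_split (hbv v), hC v]
      refine Finset.sum_congr rfl fun Ac hA => ?_
      have hA' := Finset.mem_powerset.mp hA
      have hbA : b ∉ Ac := fun h => (mem_erase.mp (hA' h)).1 rfl
      have hUC : insert b Ac ⊆ S.Comp V := by
        intro x hx
        rcases mem_insert.mp hx with h | h
        · rw [h]; exact hb
        · exact mem_of_mem_erase (hA' h)
      rw [wtr_update hb v hA', if_neg hbA, if_pos (mem_insert_self b Ac),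
        S.uA_update_w hUC (mem_insert_self b Ac) v]
      ring
    -- the right side
    have h2 : ∀ v, p b * S.Ei A p (Gi S A ξ m a dm b) (Function.update V (S.w b) v) =
        ∑ Ac ∈ ((S.Comp V).erase b).powerset, wtr S A p V b Ac *
          (p b * ((1 - p b * S.hh A b (Function.update V (S.w b) v)) *
            Gb S A ξ m a dm b Ac (Function.update V (S.w b) v))) := by
      intro v
      rw [Ei_split (hbv v), hC v, Finset.mul_sum]
      refine Finset.sum_congr rfl fun Ac hA => ?_
      have hA' := Finset.mem_powerset.mp hA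
      have hbA : b ∉ Ac := fun h => (mem_erase.mp (hA' h)).1 rfl
      rw [wtr_update hb v hA']
      have h3 : Gi S A ξ m a dm b Ac (Function.update V (S.w b) v) =
          Gb S A ξ m a dm b Ac (Function.update V (S.w b) v) :=
        Gi_pos ⟨(S.mem_Comp).mp (hbv v), hbA⟩
      have h4 : Gi S A ξ m a dm b (insert b Ac) (Function.update V (S.w b) v) = 0 :=
        Gi_neg fun h => h.2 (mem_insert_self b Ac)
      rw [h3, h4]
      ring
    simp_rw [h1, h2]
    -- integrability in the new variable
    have hmeasU : Measurable fun v : ℝ => Function.update V (S.w b) v := by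
      have h := (measurable_upd (S.w b)).comp (measurable_const.prodMk measurable_id :
        Measurable fun v : ℝ => (V, v))
      exact h
    have hhm : Measurable fun v : ℝ => S.hh A b (Function.update V (S.w b) v) :=
      (S.measurable_hh A b).comp hmeasU
    have hh0 : ∀ v, 0 ≤ S.hh A b (Function.update V (S.w b) v) := fun v => S.hh_nonneg hS (hbv v)
    have hh1 : ∀ v, S.hh A b (Function.update V (S.w b) v) ≤ 1 / 2 := fun v => S.hh_le hS (hbv v)
    have hib : Integrable (fun v : ℝ => S.hh A b (Function.update V (S.w b) v)) (unif S.c) :=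
      Integrable.of_bound hhm.aestronglyMeasurable (1 / 2) (Filter.Eventually.of_forall fun v => by
        rw [Real.norm_of_nonneg (hh0 v)]; exact hh1 v)
    obtain ⟨CG, hCG⟩ := (bdd_Gb (S := S) (A := A) hS ξ m ha dm b).bdd
    have hGm : ∀ Ac, Measurable fun v : ℝ => Gb S A ξ m a dm b Ac (Function.update V (S.w b) v) :=
      fun Ac => ((bdd_Gb (S := S) (A := A) hS ξ m ha dm b).meas Ac).comp hmeasU
    have hAcv : ∀ v, ∀ Ac ∈ ((S.Comp V).erase b).powerset,
        Ac ⊆ S.Comp (Function.update V (S.w b) v) := by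
      intro v Ac hA
      rw [hC v]
      exact (Finset.mem_powerset.mp hA).trans (erase_subset _ _)
    have hi1 : ∀ Ac ∈ ((S.Comp V).erase b).powerset, Integrable (fun v : ℝ =>
        wtr S A p V b Ac * (p b * S.hh A b (Function.update V (S.w b) v) *
            share A ξ (S.uA A m a (insert b Ac) V) (S.w b))) (unif S.c) := by
      intro Ac _
      exact ((hib.const_mul (p b)).mul_const _).const_mul _
    have hbd : ∀ (f : ℝ → ℝ), Measurable f → (∀ v, |f v| ≤ 1) → ∀ Ac ∈
        ((S.Comp V).erase b).powerset, Integrable (fun v : ℝ => f v *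
          Gb S A ξ m a dm b Ac (Function.update V (S.w b) v)) (unif S.c) := by
      intro f hf hf1 Ac hA
      refine Integrable.of_bound (hf.mul (hGm Ac)).aestronglyMeasurable |CG|
        (Filter.Eventually.of_forall fun v => ?_)
      rw [Real.norm_eq_abs, abs_mul]
      have h5 := hCG _ Ac (hAcv v Ac hA)
      calc |f v| * |Gb S A ξ m a dm b Ac (Function.update V (S.w b) v)| ≤ 1 * |CG| :=
            mul_le_mul (hf1 v) (h5.trans (le_abs_self _)) (abs_nonneg _) zero_le_one
        _ = |CG| := one_mul _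
    have hpb := hp b
    have habs : ∀ v, |1 - p b * S.hh A b (Function.update V (S.w b) v)| ≤ 1 := by
      intro v
      have h6 := hh0 v
      have h7 := hh1 v
      have h8 : p b * S.hh A b (Function.update V (S.w b) v) ≤
          1 * S.hh A b (Function.update V (S.w b) v) := mul_le_mul_of_nonneg_right hpb.2 h6
      have h9 : 0 ≤ p b * S.hh A b (Function.update V (S.w b) v) := mul_nonneg hpb.1 h6
      rw [abs_le]
      constructor <;> linarith
    have hi2 : ∀ Ac ∈ ((S.Comp V).erase b).powerset, Integrable (fun v : ℝ =>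
        wtr S A p V b Ac * (p b * ((1 - p b * S.hh A b (Function.update V (S.w b) v)) *
            Gb S A ξ m a dm b Ac (Function.update V (S.w b) v)))) (unif S.c) := by
      intro Ac hA
      exact ((hbd _ (measurable_const.sub (hhm.const_mul _)) habs Ac hA).const_mul _).const_mul _
    rw [integral_finset_sum _ hi1, integral_finset_sum _ hi2]
    refine Finset.sum_le_sum fun Ac hA => ?_
    have hA' := Finset.mem_powerset.mp hA
    rw [integral_const_mul, integral_const_mul]
    refine mul_le_mul_of_nonneg_left ?_ (wtr_nonneg hS hp hA')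
    rw [integral_const_mul]
    have h10 : ∫ v, p b * S.hh A b (Function.update V (S.w b) v) *
        share A ξ (S.uA A m a (insert b Ac) V) (S.w b) ∂(unif S.c) =
        p b * ((∫ v, S.hh A b (Function.update V (S.w b) v) ∂(unif S.c)) *
          share A ξ (S.uA A m a (insert b Ac) V) (S.w b)) := by
      rw [integral_mul_const, integral_const_mul]
      ring
    rw [h10]
    refine mul_le_mul_of_nonneg_left ?_ hpb.1
    -- the probability of the flag
    have hζ := hS.ze_mem b V hbc
    have h11 : ∀ F : ℝ → ℝ, ∫ v, S.hh A b (Function.update V (S.w b) v) * F v ∂(unif S.c) =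
        S.κ * S.gg A b V * ∫ v, F (S.ze A b V + v) ∂(SL.nuM (S.gg A b V) S.r) := by
      intro F
      simp_rw [S.hh_update_w]
      exact integral_unif_ff S.c_pos hg S.r_pos hgr hζ (S.κ * S.gg A b V) F
    have := SL.isProbabilityMeasure_nuM hg S.r_pos hgr
    have h12 : ∫ v, S.hh A b (Function.update V (S.w b) v) ∂(unif S.c) = S.κ * S.gg A b V := by
      have h13 := h11 fun _ => 1
      simp only [mul_one, integral_const, probReal_univ, smul_eq_mul] at h13
      exact h13
    rw [h12]
    have hκ : 0 ≤ S.κ * S.gg A b V := mul_nonneg S.κ_pos.le hg.le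
    -- continuity of the share in the new variable
    set u := S.uA A m a (insert b Ac) V with hu'
    have hUC : insert b Ac ⊆ S.Comp V := by
      intro x hx
      rcases mem_insert.mp hx with h | h
      · rw [h]; exact hb
      · exact mem_of_mem_erase (hA' h)
    have hloss : Loss u := S.uA_loss hS ha hUC
    have huv : ∀ v : ℝ, S.uA A m a Ac (Function.update V (S.w b) (S.ze A b V + v)) =
        Function.update u (S.w b) ((S.ze A b V : ℂ) + (v : ℂ) - (a : ℂ) * Complex.I) := by
      intro v
      have hUC' : insert b Ac ⊆ S.Comp (Function.update V (S.w b) (S.ze A b V + v)) := by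
        rw [hC]; exact hUC
      have hUe : (insert b Ac).erase b = Ac := by
        rw [erase_insert]
        exact fun h => (mem_erase.mp (hA' h)).1 rfl
      have h2 := S.uA_erase (A := A) (m := m) (a := a) hUC' (mem_insert_self b Ac)
      rw [hUe, S.uA_update_w hUC (mem_insert_self b Ac), Function.update_self, ← hu'] at h2
      rw [h2]
      push_cast
      rfl
    have hcont : ∀ l ∈ S.L b, Continuous fun v : ℝ =>
        share A ξ (S.uA A m a Ac (Function.update V (S.w b) (S.ze A b V + v))) l := by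
      intro l hl
      simp_rw [huv]
      have hlw : l ≠ S.w b := by
        rintro rfl
        exact S.w_not b hl
      exact continuous_share_inact hS.symm (hloss.off _) ξ (S.ze A b V) ha hlw
    have h14 := share_block hS hE ha hm hb hA'
    have h15 : C0 S m a dm b + C1 S m a * ∑ l ∈ S.L b,
      ∫ v : ℝ, SL.ff (S.gg A b V) S.r v *
        share A ξ (S.uA A m a Ac (Function.update V (S.w b) (S.ze A b V + v))) l =
        ∫ v, Gb S A ξ m a dm b Ac (Function.update V (S.w b) (S.ze A b V + v))
          ∂(SL.nuM (S.gg A b V) S.r) := by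
      rw [SL.integral_nuM hg S.r_pos]
      have h16 : ∀ v : ℝ, SL.ff (S.gg A b V) S.r v •
          Gb S A ξ m a dm b Ac (Function.update V (S.w b) (S.ze A b V + v)) =
          C0 S m a dm b * SL.ff (S.gg A b V) S.r v + C1 S m a * ∑ l ∈ S.L b,
            SL.ff (S.gg A b V) S.r v * share A ξ (S.uA A m a Ac
              (Function.update V (S.w b) (S.ze A b V + v))) l := by
        intro v
        rw [smul_eq_mul, Gb, ← Finset.mul_sum]
        ring
      simp_rw [h16]
      have hiL : ∀ l ∈ S.L b, Integrable fun v : ℝ => SL.ff (S.gg A b V) S.r v *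
          share A ξ (S.uA A m a Ac (Function.update V (S.w b) (S.ze A b V + v))) l :=
        fun l hl => SL.integrable_ff_mul_real hg S.r_pos hgr (hcont l hl)
      rw [integral_add ((SL.integrable_ff hg S.r_pos hgr).const_mul _)
        ((integrable_finset_sum _ hiL).const_mul _), integral_const_mul, integral_const_mul,
        SL.integral_ff hg S.r_pos hgr, mul_one, integral_finset_sum _ hiL]
    rw [h15] at h14
    calc S.κ * S.gg A b V * share A ξ u (S.w b)
        ≤ S.κ * S.gg A b V * ∫ v, Gb S A ξ m a dm b Ac (Function.update V (S.w b) (S.ze A b V + v))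
          ∂(SL.nuM (S.gg A b V) S.r) := mul_le_mul_of_nonneg_left h14 hκ
      _ = ∫ v, S.hh A b (Function.update V (S.w b) v) *
          Gb S A ξ m a dm b Ac (Function.update V (S.w b) v) ∂(unif S.c) :=
          (h11 fun v => Gb S A ξ m a dm b Ac (Function.update V (S.w b) v)).symm
      _ ≤ ∫ v, (1 - p b * S.hh A b (Function.update V (S.w b) v)) *
            Gb S A ξ m a dm b Ac (Function.update V (S.w b) v) ∂(unif S.c) := by
          refine integral_mono (hbd _ hhm (fun v => ?_) Ac hA)
            (hbd _ (measurable_const.sub (hhm.const_mul _)) habs Ac hA) fun v => ?_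
          · rw [abs_of_nonneg (hh0 v)]
            linarith [hh1 v]
          · have h17 : 0 ≤ Gb S A ξ m a dm b Ac (Function.update V (S.w b) v) :=
              Gb_nonneg hS ha hE.dm_nonneg (hAcv v Ac hA)
            refine mul_le_mul_of_nonneg_right ?_ h17
            have h6 := hh0 v
            have h7 := hh1 v
            have h8 : p b * S.hh A b (Function.update V (S.w b) v) ≤
                1 * S.hh A b (Function.update V (S.w b) v) := mul_le_mul_of_nonneg_right hpb.2 h6
            linarith

/-- the blocks of a set of complete blocks are disjoint: sums over their sites -/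
theorem sum_blocks_le {f : ι → ℝ} (hf : ∀ x, 0 ≤ f x) {B : Finset 𝔅} (hB : B ⊆ S.Comp V) :
    ∑ b ∈ B, ∑ x ∈ S.Q b, f x ≤ ∑ x, f x := by
  rw [← Finset.sum_biUnion]
  · exact Finset.sum_le_sum_of_subset_of_nonneg (subset_univ _) fun x _ _ => hf x
  · intro b hb b' hb' h
    exact S.Comp_disj (hB hb) (hB hb') h

/-- the constant of section 5 -/
noncomputable def Lc (S : Sys ι 𝔅) (m : ℕ) (a dm : ℝ) : ℝ :=
  2 * C1 S m a + (2 * dm + 8 * S.lw m * (dm / a))

theorem Lc_nonneg (S : Sys ι 𝔅) (m : ℕ) (ha : 0 < a) (hdm : 0 ≤ dm) : 0 ≤ Lc S m a dm := by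
  unfold Lc
  have := S.lw_pos m
  have := C1_nonneg S m ha
  positivity

/-- SECTION 5: the total share of the active gadgets of class `m` is small when class `m` is
thinned: at most `t Lc (D + |ι|)`. -/
theorem share_bound (hS : Good S A) (hE : EHyp S A ξ m a dm) (ha : 0 < a) {t : ℝ} (h0 : 0 ≤ t)
    (h1 : t ≤ 1) :
    S.Ex A (S.pim m t) (fun Ac V => ∑ b ∈ Ac.filter fun b => S.cls b = m,
        share A ξ (S.uA A m a Ac V) (S.w b)) ≤
      t * Lc S m a dm * (S.Dw A ξ m t a + Fintype.card ι) := by
  have hp : Adm (S.pim m t) := S.adm_pim m h0 h1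
  set B : Finset 𝔅 := univ.filter fun b => S.cls b = m with hB
  have hBb : ∀ b ∈ B, S.cls b = m := fun b hb => (mem_filter.mp hb).2
  -- exchange
  have e1 : S.Ex A (S.pim m t) (fun Ac V => ∑ b ∈ Ac.filter fun b => S.cls b = m,
        share A ξ (S.uA A m a Ac V) (S.w b)) =
      ∑ b ∈ B, S.Ex A (S.pim m t) (fun Ac V => if b ∈ Ac then
        share A ξ (S.uA A m a Ac V) (S.w b) else 0) := by
    rw [← S.Ex_sum hS hp B _ fun b _ => (S.bdd_share hS ξ m ha (S.w b)).ite S (fun Ac => b ∈ Ac)]
    rw [S.Ex_eq, S.Ex_eq]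
    refine integral_congr_ae (Filter.Eventually.of_forall fun V => ?_)
    refine S.Ei_congr fun Ac _ => ?_
    rw [hB, ← Finset.sum_filter]
    refine Finset.sum_congr ?_ fun _ _ => rfl
    ext b
    simp only [mem_filter, mem_univ, true_and]
    tauto
  -- one block
  have e2 : ∀ b ∈ B, S.Ex A (S.pim m t) (fun Ac V => if b ∈ Ac then
        share A ξ (S.uA A m a Ac V) (S.w b) else 0) ≤
      t * S.Ex A (S.pim m t) (Gi S A ξ m a dm b) := by
    intro b hb
    have hm := hBb b hb
    have hpb : S.pim m t b = t := by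
      unfold Sys.pim
      rw [if_neg (by omega), if_pos hm]
    have hi1 := S.integrable_Ei hS hp
      ((S.bdd_share hS ξ m ha (S.w b)).ite S (fun Ac => b ∈ Ac))
    have hi2 := (S.integrable_Ei hS hp (bdd_Gi (S := S) (A := A) hS ξ m ha dm b)).const_mul
      (S.pim m t b)
    have h2 := integral_le_of_upd S.c_pos (S.w b) hi1 hi2 (resample hS hE ha hm hp)
    rw [integral_const_mul, hpb] at h2
    exact h2
  -- the sum of the comparison functionals
  have e3 : ∑ b ∈ B, S.Ex A (S.pim m t) (Gi S A ξ m a dm b) ≤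
      Lc S m a dm * (S.Dw A ξ m t a + Fintype.card ι) := by
    rw [← S.Ex_sum hS hp B _ fun b _ => bdd_Gi (S := S) (A := A) hS ξ m ha dm b]
    have hD := S.bdd_DU hS ξ m ha
    have e4 : Lc S m a dm * (S.Dw A ξ m t a + Fintype.card ι) =
        S.Ex A (S.pim m t) (fun Ac V => Lc S m a dm * (DU A ξ (S.uA A m a Ac V) +
          Fintype.card ι)) := by
      rw [S.Ex_mul, S.Ex_add hS hp hD (Sys.Bdd.const S _), S.Ex_const]
      rfl
    rw [e4]
    refine S.Ex_mono hS hp (Sys.Bdd.sum S _ fun b _ => bdd_Gi (S := S) (A := A) hS ξ m ha dm b)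
      (Sys.Bdd.mul_const S (Sys.Bdd.add S hD (Sys.Bdd.const S _)) _) fun V Ac hA => ?_
    classical
    have hloss := S.uA_loss (m := m) hS ha hA
    -- only complete blocks
    have h3 : ∑ b ∈ B, Gi S A ξ m a dm b Ac V ≤ ∑ b ∈ S.Comp V, ∑ x ∈ S.Q b,
        (C1 S m a * share A ξ (S.uA A m a Ac V) x +
          (2 * dm + 8 * S.lw m * (dm / a))) := by
      have hnn : ∀ b, 0 ≤ ∑ x ∈ S.Q b, (C1 S m a * share A ξ (S.uA A m a Ac V) x +
          (2 * dm + 8 * S.lw m * (dm / a))) := by
        intro b
        refine Finset.sum_nonneg fun x _ => add_nonneg (mul_nonneg (C1_nonneg S m ha)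
          (share_nonneg ξ hloss x)) ?_
        have := S.lw_pos m
        have := hE.dm_nonneg
        positivity
      calc ∑ b ∈ B, Gi S A ξ m a dm b Ac V ≤ ∑ b ∈ B.filter fun b => S.comp b V,
            ∑ x ∈ S.Q b, (C1 S m a * share A ξ (S.uA A m a Ac V) x +
              (2 * dm + 8 * S.lw m * (dm / a))) := by
            suffices hone : ∀ b ∈ B, Gi S A ξ m a dm b Ac V ≤ if S.comp b V then
                ∑ x ∈ S.Q b, (C1 S m a * share A ξ (S.uA A m a Ac V) x +
                  (2 * dm + 8 * S.lw m * (dm / a))) else 0 from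
              (Finset.sum_le_sum hone).trans (le_of_eq (Finset.sum_filter _ _).symm)
            intro b _
            by_cases hc : S.comp b V
            · rw [if_pos hc]
              by_cases hcA : b ∉ Ac
              · rw [Gi_pos ⟨hc, hcA⟩]
                unfold Gb C0
                rw [Finset.sum_add_distrib, ← Finset.mul_sum, sum_const, nsmul_eq_mul]
                have h4 : ∑ l ∈ S.L b, share A ξ (S.uA A m a Ac V) l ≤
                    ∑ l ∈ S.Q b, share A ξ (S.uA A m a Ac V) l :=
                  Finset.sum_le_sum_of_subset_of_nonneg (S.L_sub b) fun x _ _ =>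
                    share_nonneg ξ hloss x
                have h5 : ((S.L b).card : ℝ) ≤ (S.Q b).card := by
                  exact_mod_cast Finset.card_le_card (S.L_sub b)
                have h6 : (1 : ℝ) ≤ (S.Q b).card := by
                  have : 0 < (S.Q b).card := Finset.card_pos.mpr ⟨_, S.w_mem b⟩
                  exact_mod_cast this
                have h7 := hE.dm_nonneg
                have h8 := S.lw_pos m
                have h9 : 0 ≤ dm / a := by positivity
                have h10 := mul_le_mul_of_nonneg_left h4 (C1_nonneg S m ha)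
                have h11 : 8 * S.lw m * ((S.L b).card * (dm / a)) ≤
                    8 * S.lw m * ((S.Q b).card * (dm / a)) := by gcongr
                have h12 : 2 * dm ≤ (S.Q b).card * (2 * dm) := by nlinarith
                nlinarith
              · rw [Gi_neg fun h => hcA h.2]
                exact hnn b
            · rw [if_neg hc, Gi_neg fun h => hc h.1]
        _ ≤ _ := by
            refine Finset.sum_le_sum_of_subset_of_nonneg ?_ fun b _ _ => hnn b
            intro b hb
            exact (S.mem_Comp).mpr (mem_filter.mp hb).2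
    refine h3.trans ?_
    have h4 := sum_blocks_le (S := S) (V := V) (f := fun x => C1 S m a *
      share A ξ (S.uA A m a Ac V) x + (2 * dm + 8 * S.lw m * (dm / a)))
      (fun x => by
        refine add_nonneg (mul_nonneg (C1_nonneg S m ha) (share_nonneg ξ hloss x)) ?_
        have := S.lw_pos m
        have := hE.dm_nonneg
        positivity) (B := S.Comp V) (subset_refl _)
    refine h4.trans ?_
    rw [Finset.sum_add_distrib, ← Finset.mul_sum, sum_share, sum_const, nsmul_eq_mul, card_univ]
    have h5 : 0 ≤ DU A ξ (S.uA A m a Ac V) := DU_nonneg ξ hloss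
    have h6 := C1_nonneg S m ha
    have h7 : 0 ≤ 2 * dm + 8 * S.lw m * (dm / a) := by
      have := S.lw_pos m
      have := hE.dm_nonneg
      positivity
    have h8 : (0 : ℝ) ≤ Fintype.card ι := Nat.cast_nonneg _
    unfold Lc
    nlinarith [mul_nonneg h6 h8, mul_nonneg h7 h5]
  rw [e1]
  calc ∑ b ∈ B, S.Ex A (S.pim m t) (fun Ac V => if b ∈ Ac then
        share A ξ (S.uA A m a Ac V) (S.w b) else 0)
      ≤ ∑ b ∈ B, t * S.Ex A (S.pim m t) (Gi S A ξ m a dm b) := Finset.sum_le_sum e2
    _ = t * ∑ b ∈ B, S.Ex A (S.pim m t) (Gi S A ξ m a dm b) := by rw [Finset.mul_sum]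
    _ ≤ t * (Lc S m a dm * (S.Dw A ξ m t a + Fintype.card ι)) :=
        mul_le_mul_of_nonneg_left e3 h0
    _ = _ := by ring

end main

end Pool.Agent.Lib.MP_562b47_mp.EC
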