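import Pool.Agent.Lib.MP_562b47_mp.EC.Exp

/-!
MP_562b47, section 5, part 4: the hypothesis `phc` of `EHyp` from a bound of the real inverse of the
inner block, when the background is small.
-/

open Matrix Finset MeasureTheory

set_option linter.unusedSectionVars false

namespace Pool.Agent.Lib.MP_562b47_mp.EC

open Pool.Agent.Lib.MP_562b47_mp.AL Pool.Agent.Lib.MP_562b47_mp Pool.Agent.Lib.MP_562b47_mp.WO

variable {ι : Type*} [Fintype ι] [DecidableEq ι]
variable {A : Matrix ι ι ℝ} {T : Finset ι} {V : ι → ℝ} {a R : ℝ}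

/-- the complex potential with background `a` -/
noncomputable def Vc (V : ι → ℝ) (a : ℝ) (x : ι) : ℂ := (V x : ℂ) - (a : ℂ) * Complex.I

/-- resolvent identity: `RC = RS + i a RC RS` on the block -/
theorem RC_sub_RS (hA : A.IsSymm) (ha : 0 < a) (hdet : (HS A T V).det ≠ 0) {x y : ι} (hx : x ∈ T)
    (hy : y ∈ T) : RC A T (Vc V a) x y = (RS A T V x y : ℂ) +
      (a : ℂ) * Complex.I * ∑ z ∈ T, RC A T (Vc V a) x z * (RS A T V z y : ℂ) := by
  have hloss : ∀ x ∈ T, (Vc V a x).im < 0 := fun x _ => by simp [Vc]; exact ha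
  -- `∑_t HM_zt RS_ty = δ_zy - i a RS_zy`
  have h1 : ∀ z ∈ T, ∑ t ∈ T, HM A (Vc V a) z t * (RS A T V t y : ℂ) =
      (if z = y then 1 else 0) - (a : ℂ) * Complex.I * (RS A T V z y : ℂ) := by
    intro z hz
    have h2 : (HS A T V * (HS A T V)⁻¹) ⟨z, hz⟩ ⟨y, hy⟩ = (1 : Matrix T T ℝ) ⟨z, hz⟩ ⟨y, hy⟩ := by
      rw [mul_nonsing_inv _ (isUnit_iff_ne_zero.mpr hdet)]
    rw [Matrix.mul_apply, Matrix.one_apply] at h2
    have h3 : ∑ t ∈ T, (A z t + if z = t then V z else 0) * RS A T V t y =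
        if z = y then 1 else 0 := by
      rw [← Finset.sum_coe_sort T (fun t => (A z t + if z = t then V z else 0) * RS A T V t y)]
      have h4 : ∀ t : T, (A z t + if z = (t : ι) then V z else 0) * RS A T V t y =
          HS A T V ⟨z, hz⟩ t * (HS A T V)⁻¹ t ⟨y, hy⟩ := by
        intro t
        rw [RS_of_mem A V t.2 hy]
        simp only [HS, Matrix.of_apply, Subtype.ext_iff]
      simp_rw [h4]
      rw [h2]
      simp only [Subtype.mk.injEq]
    have h5 : ∀ t ∈ T, HM A (Vc V a) z t * (RS A T V t y : ℂ) =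
        (((A z t + if z = t then V z else 0) * RS A T V t y : ℝ) : ℂ) -
          (if z = t then (a : ℂ) * Complex.I * (RS A T V t y : ℂ) else 0) := by
      intro t _
      rw [HM_apply]
      by_cases h : z = t
      · subst h
        simp only [if_true, Vc]
        push_cast
        ring
      · simp only [if_neg h]
        push_cast
        ring
    rw [Finset.sum_congr rfl h5, Finset.sum_sub_distrib, ← Complex.ofReal_sum, h3]
    congr 1
    · split_ifs <;> simp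
    · rw [Finset.sum_ite_eq T z]
      simp [hz]
  -- `∑_z RC_xz δ.. `
  have h6 : ∑ z ∈ T, RC A T (Vc V a) x z * ((if z = y then 1 else 0) -
      (a : ℂ) * Complex.I * (RS A T V z y : ℂ)) = (RS A T V x y : ℂ) := by
    calc ∑ z ∈ T, RC A T (Vc V a) x z * ((if z = y then 1 else 0) -
          (a : ℂ) * Complex.I * (RS A T V z y : ℂ))
        = ∑ z ∈ T, RC A T (Vc V a) x z * ∑ t ∈ T, HM A (Vc V a) z t * (RS A T V t y : ℂ) :=
          Finset.sum_congr rfl fun z hz => by rw [h1 z hz]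
      _ = ∑ t ∈ T, (∑ z ∈ T, RC A T (Vc V a) x z * HM A (Vc V a) z t) * (RS A T V t y : ℂ) := by
          simp_rw [Finset.mul_sum, Finset.sum_mul]
          rw [Finset.sum_comm]
          exact Finset.sum_congr rfl fun t _ => Finset.sum_congr rfl fun z _ => by ring
      _ = ∑ t ∈ T, (if x = t then 1 else 0) * (RS A T V t y : ℂ) :=
          Finset.sum_congr rfl fun t ht => by rw [RC_mul hA hloss hx ht]
      _ = (RS A T V x y : ℂ) := by
          simp [hx]
  have h7 : ∑ z ∈ T, RC A T (Vc V a) x z * ((if z = y then 1 else 0) -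
      (a : ℂ) * Complex.I * (RS A T V z y : ℂ)) = RC A T (Vc V a) x y -
        (a : ℂ) * Complex.I * ∑ z ∈ T, RC A T (Vc V a) x z * (RS A T V z y : ℂ) := by
    simp_rw [mul_sub]
    rw [Finset.sum_sub_distrib, Finset.mul_sum]
    congr 1
    · simp [hy]
    · exact Finset.sum_congr rfl fun z _ => by ring
  rw [h7] at h6
  linear_combination h6

/-- the complex inverse is at most twice the bound of the real inverse -/
theorem RC_le (hA : A.IsSymm) (ha : 0 < a) (hdet : (HS A T V).det ≠ 0)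
    (hR : ∀ x y, |RS A T V x y| ≤ R) (hsmall : a * T.card * R ≤ 1 / 2) (x y : ι) :
    ‖RC A T (Vc V a) x y‖ ≤ 2 * R := by
  have hR0 : 0 ≤ R := (abs_nonneg _).trans (hR x y)
  by_cases hx : x ∈ T
  swap
  · rw [RC_left A _ hx, norm_zero]; linarith
  by_cases hy : y ∈ T
  swap
  · rw [RC_right A _ x hy, norm_zero]; linarith
  -- the maximum of the row
  obtain ⟨y0, hy0, hmax⟩ := Finset.exists_max_image T (fun y => ‖RC A T (Vc V a) x y‖) ⟨x, hx⟩
  set M := ‖RC A T (Vc V a) x y0‖ with hM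
  have hM0 : 0 ≤ M := norm_nonneg _
  have h1 : M ≤ R + a * (T.card * (M * R)) := by
    have h11 : M = ‖(RS A T V x y0 : ℂ) +
        (a : ℂ) * Complex.I * ∑ z ∈ T, RC A T (Vc V a) x z * (RS A T V z y0 : ℂ)‖ := by
      rw [hM, RC_sub_RS hA ha hdet hx hy0]
    refine (le_of_eq h11).trans ((norm_add_le _ _).trans (add_le_add ?_ ?_))
    · rw [Complex.norm_real, Real.norm_eq_abs]
      exact hR x y0
    · rw [norm_mul, norm_mul, Complex.norm_I, mul_one, Complex.norm_real, Real.norm_of_nonneg ha.le]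
      refine mul_le_mul_of_nonneg_left ?_ ha.le
      refine (norm_sum_le _ _).trans ?_
      calc ∑ z ∈ T, ‖RC A T (Vc V a) x z * (RS A T V z y0 : ℂ)‖ ≤ ∑ _z ∈ T, M * R := by
            refine Finset.sum_le_sum fun z hz => ?_
            rw [norm_mul, Complex.norm_real, Real.norm_eq_abs]
            exact mul_le_mul (hmax z hz) (hR z y0) (abs_nonneg _) hM0
        _ = T.card * (M * R) := by rw [Finset.sum_const, nsmul_eq_mul]
  have h2 : a * (T.card * (M * R)) ≤ 1 / 2 * M := by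
    calc a * (T.card * (M * R)) = (a * T.card * R) * M := by ring
      _ ≤ 1 / 2 * M := mul_le_mul_of_nonneg_right hsmall hM0
  exact (hmax y hy).trans (by linarith)

/-- difference of the two inverses -/
theorem RC_sub_le (hA : A.IsSymm) (ha : 0 < a) (hdet : (HS A T V).det ≠ 0)
    (hR : ∀ x y, |RS A T V x y| ≤ R) (hsmall : a * T.card * R ≤ 1 / 2) (x y : ι) :
    ‖RC A T (Vc V a) x y - (RS A T V x y : ℂ)‖ ≤ 2 * a * T.card * R ^ 2 := by
  have hR0 : 0 ≤ R := (abs_nonneg _).trans (hR x y)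
  by_cases hx : x ∈ T
  swap
  · rw [RC_left A _ hx, RS_left A V hx]
    simp only [Complex.ofReal_zero, sub_zero, norm_zero]
    positivity
  by_cases hy : y ∈ T
  swap
  · rw [RC_right A _ x hy, RS_right A V x hy]
    simp only [Complex.ofReal_zero, sub_zero, norm_zero]
    positivity
  rw [RC_sub_RS hA ha hdet hx hy, add_sub_cancel_left, norm_mul, norm_mul, Complex.norm_I, mul_one,
    Complex.norm_real, Real.norm_of_nonneg ha.le]
  calc a * ‖∑ z ∈ T, RC A T (Vc V a) x z * (RS A T V z y : ℂ)‖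
      ≤ a * ∑ _z ∈ T, 2 * R * R := by
        refine mul_le_mul_of_nonneg_left ?_ ha.le
        refine (norm_sum_le _ _).trans (Finset.sum_le_sum fun z _ => ?_)
        rw [norm_mul, Complex.norm_real, Real.norm_eq_abs]
        exact mul_le_mul (RC_le hA ha hdet hR hsmall x z) (hR z y) (abs_nonneg _) (by linarith)
    _ = 2 * a * T.card * R ^ 2 := by
        rw [Finset.sum_const, nsmul_eq_mul]
        ring

variable {𝔅 : Type*} [Fintype 𝔅] [DecidableEq 𝔅] {S : Sys ι 𝔅} {b : 𝔅} {α : ℝ}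

/-- the complex coupling is close to the real one -/
theorem phc_sub_le (hS : Good S A) (hb : S.comp b V) (ha : 0 < a)
    (hR : ∀ x y, |RS A (S.inn b) V x y| ≤ R) (hsmall : a * (S.inn b).card * R ≤ 1 / 2)
    (hα : ∀ x, ∑ y, |A x y| ≤ α) (l : ι) :
    ‖phc A (S.inn b) (S.w b) (Vc V a) l - (S.ph A b V l : ℂ)‖ ≤
      α ^ 2 * (2 * a * (S.inn b).card * R ^ 2) := by
  have hα0 : 0 ≤ α := (Finset.sum_nonneg fun y _ => abs_nonneg (A l y)).trans (hα l)
  have hR0 : 0 ≤ R := (abs_nonneg _).trans (hR l l)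
  set ε := 2 * a * ((S.inn b).card : ℝ) * R ^ 2 with hε
  have hε0 : 0 ≤ ε := by positivity
  have h1 : phc A (S.inn b) (S.w b) (Vc V a) l - (S.ph A b V l : ℂ) =
      -∑ y, ∑ y', (A (S.w b) y : ℂ) * (RC A (S.inn b) (Vc V a) y y' -
        (RS A (S.inn b) V y y' : ℂ)) * (A y' l : ℂ) := by
    unfold phc Sys.ph
    push_cast
    simp_rw [mul_sub, sub_mul, Finset.sum_sub_distrib]
    ring
  rw [h1, norm_neg]
  calc ‖∑ y, ∑ y', (A (S.w b) y : ℂ) * (RC A (S.inn b) (Vc V a) y y' -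
        (RS A (S.inn b) V y y' : ℂ)) * (A y' l : ℂ)‖
      ≤ ∑ y, ∑ y', |A (S.w b) y| * ε * |A y' l| := by
        refine (norm_sum_le _ _).trans (Finset.sum_le_sum fun y _ => ?_)
        refine (norm_sum_le _ _).trans (Finset.sum_le_sum fun y' _ => ?_)
        rw [norm_mul, norm_mul, Complex.norm_real, Complex.norm_real, Real.norm_eq_abs,
          Real.norm_eq_abs]
        have := RC_sub_le hS.symm ha (hS.inv b V hb) hR hsmall y y'
        gcongr
    _ = (∑ y, |A (S.w b) y|) * ε * ∑ y', |A y' l| := by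
        rw [Finset.sum_mul, Finset.sum_mul]
        refine Finset.sum_congr rfl fun y _ => ?_
        rw [Finset.mul_sum]
    _ ≤ α * ε * α := by
        have h2 : ∑ y', |A y' l| ≤ α := by
          have : ∀ y', A y' l = A l y' := fun y' => hS.symm.apply l y'
          simp_rw [this]
          exact hα l
        have h3 := hα (S.w b)
        gcongr
    _ = α ^ 2 * ε := by ring

/-- the hypothesis `phc` of `EHyp` for one block -/
theorem phc_le (hS : Good S A) (hb : S.comp b V) (ha : 0 < a)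
    (hR : ∀ x y, |RS A (S.inn b) V x y| ≤ R) (hsmall : a * (S.inn b).card * R ≤ 1 / 2)
    (hα : ∀ x, ∑ y, |A x y| ≤ α)
    (hph : (S.L b).card * (α ^ 2 * (2 * a * (S.inn b).card * R ^ 2)) ^ 2 ≤
      ∑ l ∈ S.L b, S.ph A b V l ^ 2) :
    ∑ l ∈ S.L b, ‖phc A (S.inn b) (S.w b) (fun x => (V x : ℂ) - (a : ℂ) * Complex.I) l‖ ^ 2 ≤
      2 * S.gg A b V * S.lw (S.cls b) := by
  set ε := α ^ 2 * (2 * a * ((S.inn b).card : ℝ) * R ^ 2) with hε
  have hlw := S.lw_pos (S.cls b)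
  have h1 : 2 * S.gg A b V * S.lw (S.cls b) = 4 * ∑ l ∈ S.L b, S.ph A b V l ^ 2 := by
    unfold Sys.gg
    field_simp
    ring
  rw [h1]
  have h2 : ∀ l ∈ S.L b, ‖phc A (S.inn b) (S.w b) (fun x => (V x : ℂ) - (a : ℂ) * Complex.I) l‖ ^ 2
      ≤ 2 * S.ph A b V l ^ 2 + 2 * ε ^ 2 := by
    intro l _
    have h3 := phc_sub_le hS hb ha hR hsmall hα l
    rw [← hε] at h3
    have h4 : phc A (S.inn b) (S.w b) (fun x => (V x : ℂ) - (a : ℂ) * Complex.I) l =
        (S.ph A b V l : ℂ) + (phc A (S.inn b) (S.w b) (Vc V a) l - (S.ph A b V l : ℂ)) := by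
      unfold Vc
      ring
    rw [h4]
    set X := phc A (S.inn b) (S.w b) (Vc V a) l - (S.ph A b V l : ℂ) with hX
    have h5 := norm_add_le (S.ph A b V l : ℂ) X
    rw [Complex.norm_real, Real.norm_eq_abs] at h5
    have h6 : ‖(S.ph A b V l : ℂ) + X‖ ^ 2 ≤ (|S.ph A b V l| + ‖X‖) ^ 2 :=
      pow_le_pow_left₀ (norm_nonneg _) h5 2
    have h7 : ‖X‖ ^ 2 ≤ ε ^ 2 := pow_le_pow_left₀ (norm_nonneg _) h3 2
    nlinarith [sq_nonneg (|S.ph A b V l| - ‖X‖), sq_abs (S.ph A b V l)]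
  calc ∑ l ∈ S.L b, ‖phc A (S.inn b) (S.w b) (fun x => (V x : ℂ) - (a : ℂ) * Complex.I) l‖ ^ 2
      ≤ ∑ l ∈ S.L b, (2 * S.ph A b V l ^ 2 + 2 * ε ^ 2) := Finset.sum_le_sum h2
    _ = 2 * ∑ l ∈ S.L b, S.ph A b V l ^ 2 + 2 * ((S.L b).card * ε ^ 2) := by
        rw [Finset.sum_add_distrib, ← Finset.mul_sum, Finset.sum_const, nsmul_eq_mul]
        ring
    _ ≤ 4 * ∑ l ∈ S.L b, S.ph A b V l ^ 2 := by linarith

/-- the complex self energy is close to the resonant value -/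
theorem zec_sub_le (hS : Good S A) (hb : S.comp b V) (ha : 0 < a)
    (hR : ∀ x y, |RS A (S.inn b) V x y| ≤ R) (hsmall : a * (S.inn b).card * R ≤ 1 / 2)
    (hα : ∀ x, ∑ y, |A x y| ≤ α) :
    ‖zec A (S.inn b) (S.w b) (Vc V a) - (S.ze A b V : ℂ)‖ ≤
      α ^ 2 * (2 * a * (S.inn b).card * R ^ 2) := by
  have hα0 : 0 ≤ α := (Finset.sum_nonneg fun y _ => abs_nonneg (A (S.w b) y)).trans (hα (S.w b))
  have hR0 : 0 ≤ R := (abs_nonneg _).trans (hR (S.w b) (S.w b))
  set ε := 2 * a * ((S.inn b).card : ℝ) * R ^ 2 with hε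
  have hε0 : 0 ≤ ε := by positivity
  have h1 : zec A (S.inn b) (S.w b) (Vc V a) - (S.ze A b V : ℂ) =
      ∑ y, ∑ y', (A (S.w b) y : ℂ) * (RC A (S.inn b) (Vc V a) y y' -
        (RS A (S.inn b) V y y' : ℂ)) * (A y' (S.w b) : ℂ) := by
    unfold zec Sys.ze
    push_cast
    simp_rw [mul_sub, sub_mul, Finset.sum_sub_distrib]
    ring
  rw [h1]
  calc ‖∑ y, ∑ y', (A (S.w b) y : ℂ) * (RC A (S.inn b) (Vc V a) y y' -
        (RS A (S.inn b) V y y' : ℂ)) * (A y' (S.w b) : ℂ)‖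
      ≤ ∑ y, ∑ y', |A (S.w b) y| * ε * |A y' (S.w b)| := by
        refine (norm_sum_le _ _).trans (Finset.sum_le_sum fun y _ => ?_)
        refine (norm_sum_le _ _).trans (Finset.sum_le_sum fun y' _ => ?_)
        rw [norm_mul, norm_mul, Complex.norm_real, Complex.norm_real, Real.norm_eq_abs,
          Real.norm_eq_abs]
        have := RC_sub_le hS.symm ha (hS.inv b V hb) hR hsmall y y'
        gcongr
    _ = (∑ y, |A (S.w b) y|) * ε * ∑ y', |A y' (S.w b)| := by
        rw [Finset.sum_mul, Finset.sum_mul]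
        refine Finset.sum_congr rfl fun y _ => ?_
        rw [Finset.mul_sum]
    _ ≤ α * ε * α := by
        have h2 : ∑ y', |A y' (S.w b)| ≤ α := by
          have : ∀ y', A y' (S.w b) = A (S.w b) y' := fun y' => hS.symm.apply (S.w b) y'
          simp_rw [this]
          exact hα (S.w b)
        have h3 := hα (S.w b)
        gcongr
    _ = α ^ 2 * ε := by ring

/-- one port site: `|phc l|² ≤ 2 ∑ ph² = gg * lw` -/
theorem phc_one_le (hS : Good S A) (hb : S.comp b V) (ha : 0 < a)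
    (hR : ∀ x y, |RS A (S.inn b) V x y| ≤ R) (hsmall : a * (S.inn b).card * R ≤ 1 / 2)
    (hα : ∀ x, ∑ y, |A x y| ≤ α)
    (hph : 6 * (α ^ 2 * (2 * a * (S.inn b).card * R ^ 2)) ^ 2 ≤ ∑ l ∈ S.L b, S.ph A b V l ^ 2)
    {l : ι} (hl : l ∈ S.L b) :
    ‖phc A (S.inn b) (S.w b) (fun x => (V x : ℂ) - (a : ℂ) * Complex.I) l‖ ^ 2 ≤
      S.gg A b V * S.lw (S.cls b) := by
  set ε := α ^ 2 * (2 * a * ((S.inn b).card : ℝ) * R ^ 2) with hε
  have hlw := S.lw_pos (S.cls b)
  have h1 : S.gg A b V * S.lw (S.cls b) = 2 * ∑ l ∈ S.L b, S.ph A b V l ^ 2 := by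
    unfold Sys.gg
    field_simp
  rw [h1]
  have h0 : S.ph A b V l ^ 2 ≤ ∑ l ∈ S.L b, S.ph A b V l ^ 2 :=
    Finset.single_le_sum (f := fun l => S.ph A b V l ^ 2) (fun l _ => sq_nonneg _) hl
  have h3 := phc_sub_le hS hb ha hR hsmall hα l
  rw [← hε] at h3
  have h4 : phc A (S.inn b) (S.w b) (fun x => (V x : ℂ) - (a : ℂ) * Complex.I) l =
      (S.ph A b V l : ℂ) + (phc A (S.inn b) (S.w b) (Vc V a) l - (S.ph A b V l : ℂ)) := by
    unfold Vc
    ring
  rw [h4]
  set X := phc A (S.inn b) (S.w b) (Vc V a) l - (S.ph A b V l : ℂ) with hX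
  have h5 := norm_add_le (S.ph A b V l : ℂ) X
  rw [Complex.norm_real, Real.norm_eq_abs] at h5
  have h6 : ‖(S.ph A b V l : ℂ) + X‖ ^ 2 ≤ (|S.ph A b V l| + ‖X‖) ^ 2 :=
    pow_le_pow_left₀ (norm_nonneg _) h5 2
  have h7 : ‖X‖ ^ 2 ≤ ε ^ 2 := pow_le_pow_left₀ (norm_nonneg _) h3 2
  nlinarith [sq_nonneg (|S.ph A b V l| - 2 * ‖X‖), sq_abs (S.ph A b V l)]

end Pool.Agent.Lib.MP_562b47_mp.EC
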