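import Pool.Agent.Lib.MP_562b47_mp.AL.Trade
import Pool.Agent.Lib.MP_562b47_mp.SL.Var

/-!
MP_562b47, section 5, part 1: the Green function of the world with an ACTIVE gadget at the site `s`
(potential `ζ - i g - i a`) is dominated, entry by entry, by the mean square of the Green function
of the world with the INACTIVE site (potential `ζ + v - i a`, `v` with the shaped law).
-/

open Matrix Finset MeasureTheory

set_option linter.unusedSectionVars false

namespace Pool.Agent.Lib.MP_562b47_mp.EC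

open Pool.Agent.Lib.MP_562b47_mp.AL Pool.Agent.Lib.MP_562b47_mp

variable {ι : Type*} [Fintype ι] [DecidableEq ι]

/-- variance identity for the shaped law -/
theorem var_identity {g r : ℝ} (hg : 0 < g) (hgr : g ≤ r) {f : ℝ → ℂ} (hf : Continuous f) :
    ‖∫ v : ℝ, (SL.ff g r v : ℂ) * f v‖ ^ 2 +
      ∫ v : ℝ, SL.ff g r v * ‖f v - ∫ v : ℝ, (SL.ff g r v : ℂ) * f v‖ ^ 2 =
      ∫ v : ℝ, SL.ff g r v * ‖f v‖ ^ 2 := by
  have hr : 0 < r := hg.trans_le hgr
  set M := ∫ v : ℝ, (SL.ff g r v : ℂ) * f v with hM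
  have i0 : Integrable fun v : ℝ => (SL.ff g r v : ℂ) * f v := SL.integrable_ff_mul hg hr hgr hf
  have i1 : Integrable fun v : ℝ => SL.ff g r v * ‖f v‖ ^ 2 :=
    SL.integrable_ff_mul_real hg hr hgr (hf.norm.pow 2)
  have i2 : Integrable fun v : ℝ => ((starRingEnd ℂ) M * ((SL.ff g r v : ℂ) * f v)).re :=
    (i0.const_mul ((starRingEnd ℂ) M)).re
  have i3 : Integrable fun v : ℝ => SL.ff g r v * ‖M‖ ^ 2 :=
    (SL.integrable_ff hg hr hgr).mul_const _
  have e1 : ∀ v : ℝ, SL.ff g r v * ‖f v - M‖ ^ 2 = SL.ff g r v * ‖f v‖ ^ 2 -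
      2 * ((starRingEnd ℂ) M * ((SL.ff g r v : ℂ) * f v)).re + SL.ff g r v * ‖M‖ ^ 2 := by
    intro v
    have h1 := norm_add_sq_eq (-M) (f v)
    have h2 : -M + f v = f v - M := by ring
    rw [h2, norm_neg, map_neg, neg_mul, Complex.neg_re] at h1
    have h3 : ((starRingEnd ℂ) M * ((SL.ff g r v : ℂ) * f v)).re =
        SL.ff g r v * ((starRingEnd ℂ) M * f v).re := by
      rw [← Complex.re_ofReal_mul]
      congr 1
      ring
    rw [h1, h3]
    ring
  have i4 : Integrable fun v : ℝ => SL.ff g r v * ‖f v‖ ^ 2 -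
      2 * ((starRingEnd ℂ) M * ((SL.ff g r v : ℂ) * f v)).re := i1.sub (i2.const_mul 2)
  have e7 : ∫ v : ℝ, SL.ff g r v * ‖f v - M‖ ^ 2 =
      (∫ v : ℝ, SL.ff g r v * ‖f v‖ ^ 2) -
      2 * (∫ v : ℝ, ((starRingEnd ℂ) M * ((SL.ff g r v : ℂ) * f v)).re) +
      (∫ v : ℝ, SL.ff g r v) * ‖M‖ ^ 2 := by
    rw [← integral_const_mul, ← integral_mul_const, ← integral_sub i1 (i2.const_mul 2),
      ← integral_add i4 i3]
    exact integral_congr_ae (Filter.Eventually.of_forall e1)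
  rw [e7, SL.integral_ff hg hr hgr]
  have h4 : ∫ v : ℝ, ((starRingEnd ℂ) M * ((SL.ff g r v : ℂ) * f v)).re = ‖M‖ ^ 2 := by
    have h5 := integral_re (𝕜 := ℂ) (i0.const_mul ((starRingEnd ℂ) M))
    have h6 : ∫ v : ℝ, ((starRingEnd ℂ) M * ((SL.ff g r v : ℂ) * f v)).re =
        (∫ v : ℝ, (starRingEnd ℂ) M * ((SL.ff g r v : ℂ) * f v)).re := h5
    rw [h6, integral_const_mul, ← hM, mul_comm, Complex.mul_conj, Complex.ofReal_re,
      Complex.normSq_eq_norm_sq]
  rw [h4]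
  ring

/-- the constant of the comparison -/
def KC : ℝ := 1000000000

/-- comparison of the value `A + α m_C` with the mean square of `A + α/(v - y)` -/
theorem act_le_inact {g r : ℝ} (hg : 0 < g) (hgr : g ≤ r) {y : ℂ} (hy : 0 < y.im) (A α : ℂ) :
    ‖A + α * mC g y‖ ^ 2 ≤ KC * ∫ v : ℝ, SL.ff g r v * ‖A + α * (1 / ((v : ℂ) - y))‖ ^ 2 := by
  have hr : 0 < r := hg.trans_le hgr
  have hs : (-y).im < 0 := by simpa using hy
  set f : ℝ → ℂ := fun v => A + α * (1 / ((v : ℂ) - y)) with hf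
  have hfc : Continuous f := continuous_const.add (continuous_const.mul (continuous_one_div_sub hy))
  have hvar := var_identity hg hgr hfc
  set M := ∫ v : ℝ, (SL.ff g r v : ℂ) * f v with hM
  -- the mean of `1/(v-y)`
  have i1 : Integrable fun v : ℝ => (SL.ff g r v : ℂ) * (1 / ((v : ℂ) - y)) :=
    SL.integrable_ff_mul hg hr hgr (continuous_one_div_sub hy)
  have i2 : Integrable fun v : ℝ => (SL.ff g r v : ℂ) :=
    (SL.integrable_ff hg hr hgr).ofReal
  have e1 : ∫ v : ℝ, (SL.ff g r v : ℂ) * (1 / ((v : ℂ) - y)) = mC g y + SL.Rt g r (-y) := by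
    have h1 := SL.integral_ff_div hg hr hgr hs
    have h2 : mC g y = 1 / (-y - g * Complex.I) := by
      rw [mC]
      have : -y - g * Complex.I = -(y + g * Complex.I) := by ring
      rw [this, one_div_neg_eq_neg_one_div, neg_div]
    rw [h2, ← h1]
    refine integral_congr_ae (Filter.Eventually.of_forall fun v => ?_)
    simp only
    rw [mul_one_div, sub_eq_add_neg]
  have e0 : ∫ v : ℝ, (SL.ff g r v : ℂ) = 1 := by
    have h := integral_ofReal (𝕜 := ℂ) (f := SL.ff g r) (μ := volume)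
    rw [SL.integral_ff hg hr hgr] at h
    simpa using h
  have e2 : M = A + α * (mC g y + SL.Rt g r (-y)) := by
    rw [hM, ← e1]
    have h3 : ∀ v : ℝ, (SL.ff g r v : ℂ) * f v =
        (SL.ff g r v : ℂ) * A + α * ((SL.ff g r v : ℂ) * (1 / ((v : ℂ) - y))) := by
      intro v
      rw [hf]
      ring
    simp_rw [h3]
    rw [integral_add (i2.mul_const _) (i1.const_mul _), integral_mul_const, e0, one_mul,
      integral_const_mul]
  have e3 : A + α * mC g y = M - α * SL.Rt g r (-y) := by rw [e2]; ring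
  -- the variance of `f`
  have e4 : ∀ v : ℝ, SL.ff g r v * ‖f v - M‖ ^ 2 = ‖α‖ ^ 2 *
      (SL.ff g r v * ‖1 / ((v : ℂ) + -y) - (mC g y + SL.Rt g r (-y))‖ ^ 2) := by
    intro v
    have h5 : f v - M = α * (1 / ((v : ℂ) + -y) - (mC g y + SL.Rt g r (-y))) := by
      rw [hf, e2]
      simp only [sub_eq_add_neg]
      ring
    rw [h5, norm_mul, mul_pow]
    ring
  have h6 := SL.Rt_sq_le_var hg hr hgr hs (mC g y + SL.Rt g r (-y))
  have e5 : ∫ v : ℝ, SL.ff g r v * ‖f v - M‖ ^ 2 = ‖α‖ ^ 2 *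
      ∫ v : ℝ, SL.ff g r v * ‖1 / ((v : ℂ) + -y) - (mC g y + SL.Rt g r (-y))‖ ^ 2 := by
    simp_rw [e4]
    rw [integral_const_mul]
  set Vr := ∫ v : ℝ, SL.ff g r v * ‖1 / ((v : ℂ) + -y) - (mC g y + SL.Rt g r (-y))‖ ^ 2 with hVr
  have hVr0 : 0 ≤ Vr := integral_nonneg fun v => mul_nonneg (SL.ff_nonneg hg hr v) (sq_nonneg _)
  have h7 : ‖SL.Rt g r (-y)‖ ^ 2 ≤ 500000000 * Vr := by
    refine h6.trans ?_
    have h8 : g / r ≤ 1 := (div_le_one hr).mpr hgr
    have h9 : 500000000 * (g / r) ≤ 500000000 * 1 := by linarith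
    calc 500000000 * (g / r) * Vr ≤ 500000000 * 1 * Vr := mul_le_mul_of_nonneg_right h9 hVr0
      _ = 500000000 * Vr := by ring
  rw [e3]
  have h10 : ‖M - α * SL.Rt g r (-y)‖ ^ 2 ≤ 2 * ‖M‖ ^ 2 + 2 * (‖α‖ ^ 2 * ‖SL.Rt g r (-y)‖ ^ 2) := by
    have h11 := norm_sub_le M (α * SL.Rt g r (-y))
    rw [norm_mul] at h11
    have h12 : ‖M - α * SL.Rt g r (-y)‖ ^ 2 ≤ (‖M‖ + ‖α‖ * ‖SL.Rt g r (-y)‖) ^ 2 :=
      pow_le_pow_left₀ (norm_nonneg _) h11 2
    nlinarith [sq_nonneg (‖M‖ - ‖α‖ * ‖SL.Rt g r (-y)‖)]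
  refine h10.trans ?_
  rw [← hvar, e5]
  have hα : 0 ≤ ‖α‖ ^ 2 := sq_nonneg _
  have hM0 : 0 ≤ ‖M‖ ^ 2 := sq_nonneg _
  have h13 : ‖α‖ ^ 2 * ‖SL.Rt g r (-y)‖ ^ 2 ≤ ‖α‖ ^ 2 * (500000000 * Vr) :=
    mul_le_mul_of_nonneg_left h7 hα
  unfold KC
  nlinarith

variable {A : Matrix ι ι ℝ} {u : ι → ℂ} {s : ι}

/-- the Green function of the world with the active site -/
theorem G_act (hA : A.IsSymm) (hu : LossOff u s) (ζ : ℝ) {a g : ℝ} (ha : 0 < a) (hg : 0 ≤ g)
    (x t : ι) :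
    GM A (Function.update u s (ζ - g * Complex.I - a * Complex.I)) x t =
      A0 A u s x t + aa A u s x * aa A u s t * mC g (yy A u s ζ a) := by
  have h1 : ((ζ : ℂ) - g * Complex.I - a * Complex.I) ≠ zz A u s :=
    ne_zz hA hu (by simp; linarith)
  rw [G_update hA hu h1, mC]
  have h2 : ((ζ : ℂ) - g * Complex.I - a * Complex.I) - zz A u s =
      -(yy A u s ζ a + g * Complex.I) := by
    rw [yy]; ring
  rw [h2, div_neg]
  ring

/-- the Green function of the world with the inactive site -/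
theorem G_inact (hA : A.IsSymm) (hu : LossOff u s) (ζ : ℝ) {a : ℝ} (ha : 0 < a) (v : ℝ)
    (x t : ι) :
    GM A (Function.update u s (ζ + v - a * Complex.I)) x t =
      A0 A u s x t + aa A u s x * aa A u s t * (1 / ((v : ℂ) - yy A u s ζ a)) := by
  have h1 : ((ζ : ℂ) + v - a * Complex.I) ≠ zz A u s := ne_zz hA hu (by simp; exact ha)
  rw [G_update hA hu h1]
  have h2 : ((ζ : ℂ) + v - a * Complex.I) - zz A u s = (v : ℂ) - yy A u s ζ a := by
    rw [yy]; ring
  rw [h2]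
  ring

theorem continuous_G_inact (hA : A.IsSymm) (hu : LossOff u s) (ζ : ℝ) {a : ℝ} (ha : 0 < a)
    (x t : ι) :
    Continuous fun v : ℝ => GM A (Function.update u s (ζ + v - a * Complex.I)) x t := by
  simp_rw [G_inact hA hu ζ ha]
  exact continuous_const.add (continuous_const.mul (continuous_one_div_sub (yy_im_pos hA hu ζ ha)))

/-- THE COMPARISON: entries of the active world against the inactive world -/
theorem GM_act_le (hA : A.IsSymm) (hu : LossOff u s) (ζ : ℝ) {a g r : ℝ} (ha : 0 < a) (hg : 0 < g)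
    (hgr : g ≤ r) (x t : ι) :
    ‖GM A (Function.update u s (ζ - g * Complex.I - a * Complex.I)) x t‖ ^ 2 ≤
      KC * ∫ v : ℝ, SL.ff g r v *
        ‖GM A (Function.update u s (ζ + v - a * Complex.I)) x t‖ ^ 2 := by
  rw [G_act hA hu ζ ha hg.le]
  simp_rw [G_inact hA hu ζ ha]
  exact act_le_inact hg hgr (yy_im_pos hA hu ζ ha) _ _

end Pool.Agent.Lib.MP_562b47_mp.EC
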