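import Pool.Agent.Lib.MP_562b47_mp.AL.Reg

/-!
MP_562b47, elimination of the inner block `T` of a gadget with centre `w` and port sites `L`, for
the complex potential `u` (background absorption in the block included).
-/

open Matrix Finset

set_option linter.unusedSectionVars false

namespace Pool.Agent.Lib.MP_562b47_mp.EC

open Pool.Agent.Lib.MP_562b47_mp.AL Pool.Agent.Lib.MP_562b47_mp

variable {ι : Type*} [Fintype ι] [DecidableEq ι]

/-- restriction of the matrix to `T` -/
def AT (A : Matrix ι ι ℝ) (T : Finset ι) : Matrix T T ℝ := A.submatrix Subtype.val Subtype.val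

/-- restriction of the potential to `T` -/
def uT (u : ι → ℂ) (T : Finset ι) : T → ℂ := fun x => u x

open Classical in
/-- the Green function of the block `T`, extended by zero -/
noncomputable def RC (A : Matrix ι ι ℝ) (T : Finset ι) (u : ι → ℂ) (x y : ι) : ℂ :=
  if hx : x ∈ T then (if hy : y ∈ T then GM (AT A T) (uT u T) ⟨x, hx⟩ ⟨y, hy⟩ else 0) else 0

/-- complex coupling of the centre `w` to the port site `x` -/
noncomputable def phc (A : Matrix ι ι ℝ) (T : Finset ι) (w : ι) (u : ι → ℂ) (x : ι) : ℂ :=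
  -∑ y, ∑ y', (A w y : ℂ) * RC A T u y y' * (A y' x : ℂ)

/-- complex resonant value -/
noncomputable def zec (A : Matrix ι ι ℝ) (T : Finset ι) (w : ι) (u : ι → ℂ) : ℂ :=
  -(A w w : ℂ) + ∑ y, ∑ y', (A w y : ℂ) * RC A T u y y' * (A y' w : ℂ)

variable {A : Matrix ι ι ℝ} {T : Finset ι} {u : ι → ℂ} {w : ι}

theorem RC_left (A : Matrix ι ι ℝ) (u : ι → ℂ) {x : ι} (hx : x ∉ T) (y : ι) :
    RC A T u x y = 0 := by
  unfold RC
  rw [dif_neg hx]

theorem RC_right (A : Matrix ι ι ℝ) (u : ι → ℂ) (x : ι) {y : ι} (hy : y ∉ T) :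
    RC A T u x y = 0 := by
  unfold RC
  split_ifs <;> rfl

theorem RC_mem (A : Matrix ι ι ℝ) (u : ι → ℂ) (x y : T) :
    RC A T u x y = GM (AT A T) (uT u T) x y := by
  unfold RC
  rw [dif_pos x.2, dif_pos y.2]

theorem RC_congr (A : Matrix ι ι ℝ) {u u' : ι → ℂ} (h : ∀ x ∈ T, u x = u' x) (x y : ι) :
    RC A T u x y = RC A T u' x y := by
  unfold RC
  have : uT u T = uT u' T := by
    funext z
    exact h z.1 z.2
  rw [this]

theorem phc_congr (A : Matrix ι ι ℝ) (w : ι) {u u' : ι → ℂ} (h : ∀ x ∈ T, u x = u' x) (x : ι) :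
    phc A T w u x = phc A T w u' x := by
  unfold phc
  simp only [RC_congr A h]

theorem zec_congr (A : Matrix ι ι ℝ) (w : ι) {u u' : ι → ℂ} (h : ∀ x ∈ T, u x = u' x) :
    zec A T w u = zec A T w u' := by
  unfold zec
  simp only [RC_congr A h]

theorem AT_symm (hA : A.IsSymm) : (AT A T).IsSymm := by
  ext x y
  exact hA.apply _ _

theorem loss_uT (hu : ∀ x ∈ T, (u x).im < 0) : Loss (uT u T) := fun x => hu x.1 x.2

/-- sums over `T` -/
theorem sum_T (f : ι → ℂ) (hf : ∀ x, x ∉ T → f x = 0) : ∑ x, f x = ∑ x : T, f x := by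
  rw [Finset.sum_coe_sort T f]
  exact (Finset.sum_subset (subset_univ T) fun x _ hx => hf x hx).symm

/-- `G H = 1` on the block -/
theorem RC_mul (hA : A.IsSymm) (hu : ∀ x ∈ T, (u x).im < 0) {x z : ι} (hx : x ∈ T) (hz : z ∈ T) :
    ∑ y ∈ T, RC A T u x y * HM A u y z = if x = z then 1 else 0 := by
  have h1 := congrFun (congrFun (GM_mul_HM (AT_symm (T := T) hA) (loss_uT hu)) ⟨x, hx⟩) ⟨z, hz⟩
  rw [Matrix.mul_apply, Matrix.one_apply] at h1
  rw [← Finset.sum_coe_sort T (fun y => RC A T u x y * HM A u y z)]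
  have h2 : ∀ y : T, RC A T u x y * HM A u y z =
      GM (AT A T) (uT u T) ⟨x, hx⟩ y * HM (AT A T) (uT u T) y ⟨z, hz⟩ := by
    intro y
    have h3 := RC_mem A u ⟨x, hx⟩ y
    simp only at h3
    rw [h3, HM_apply, HM_apply]
    congr 1
    simp only [AT, uT, Matrix.submatrix_apply, Subtype.ext_iff]
  simp_rw [h2]
  rw [h1]
  simp only [Subtype.mk.injEq]

/-- the solution inside the block in terms of its values outside -/
theorem elim (hA : A.IsSymm) (hu : ∀ x ∈ T, (u x).im < 0) {f : ι → ℂ}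
    (hf : ∀ x ∈ T, ∑ y, HM A u x y * f y = 0) {x : ι} (hx : x ∈ T) :
    f x = -∑ t ∈ T, RC A T u x t * ∑ y ∈ univ \ T, (A t y : ℂ) * f y := by
  have h1 : ∀ t ∈ T, ∑ y ∈ univ \ T, (A t y : ℂ) * f y = -∑ y ∈ T, HM A u t y * f y := by
    intro t ht
    have h2 := hf t ht
    rw [← Finset.sum_sdiff (subset_univ T)] at h2
    have h3 : ∑ y ∈ univ \ T, HM A u t y * f y = ∑ y ∈ univ \ T, (A t y : ℂ) * f y := by
      refine Finset.sum_congr rfl fun y hy => ?_
      have : t ≠ y := by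
        rintro rfl
        exact (Finset.mem_sdiff.mp hy).2 ht
      rw [HM_apply, if_neg this, add_zero]
    rw [h3] at h2
    linear_combination h2
  have h4 : ∑ t ∈ T, RC A T u x t * ∑ y ∈ univ \ T, (A t y : ℂ) * f y =
      -∑ z ∈ T, (∑ t ∈ T, RC A T u x t * HM A u t z) * f z := by
    rw [Finset.sum_congr rfl fun t ht => by rw [h1 t ht]]
    simp_rw [Finset.sum_mul]
    rw [Finset.sum_comm, ← Finset.sum_neg_distrib]
    refine Finset.sum_congr rfl fun t _ => ?_
    rw [mul_neg, Finset.mul_sum]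
    congr 1
    exact Finset.sum_congr rfl fun y _ => by ring
  rw [h4, neg_neg, Finset.sum_congr rfl fun z hz => by rw [RC_mul hA hu hx hz]]
  simp [hx]

/-- the equation at the centre after elimination of the block -/
theorem row_w (hA : A.IsSymm) (hu : ∀ x ∈ T, (u x).im < 0) (hw : w ∉ T) {L : Finset ι}
    (hL : ∀ x ∈ L, x ∉ T ∧ x ≠ w)
    (hsep : ∀ x ∈ T, ∀ y, y ∉ T → y ≠ w → y ∉ L → A x y = 0)
    (hsepw : ∀ y, y ∉ T → y ≠ w → A w y = 0) {f : ι → ℂ}
    (hf : ∀ x ∈ T, ∑ y, HM A u x y * f y = 0) :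
    ∑ y, HM A u w y * f y = (u w - zec A T w u) * f w + ∑ l ∈ L, phc A T w u l * f l := by
  -- the sum over the exterior
  have h1 : ∀ t ∈ T, ∑ y ∈ univ \ T, (A t y : ℂ) * f y =
      (A t w : ℂ) * f w + ∑ l ∈ L, (A t l : ℂ) * f l := by
    intro t ht
    have h2 : insert w L ⊆ univ \ T := by
      intro y hy
      rcases Finset.mem_insert.mp hy with h | h
      · rw [h]; simp [hw]
      · simp [(hL y h).1]
    rw [← Finset.sum_subset h2, Finset.sum_insert]
    · intro h; exact (hL w h).2 rfl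
    · intro y hy hy'
      have h3 : y ≠ w := fun h => hy' (by rw [h]; exact mem_insert_self _ _)
      have h4 : y ∉ L := fun h => hy' (mem_insert_of_mem h)
      rw [hsep t ht y (Finset.mem_sdiff.mp hy).2 h3 h4]
      simp
  have h5 : ∀ y ∈ T, f y = -∑ t ∈ T, RC A T u y t *
      ((A t w : ℂ) * f w + ∑ l ∈ L, (A t l : ℂ) * f l) := by
    intro y hy
    rw [elim hA hu hf hy]
    congr 1
    exact Finset.sum_congr rfl fun t ht => by rw [h1 t ht]
  -- the row of `w`
  have h6 : ∑ y, HM A u w y * f y = ((A w w : ℂ) + u w) * f w + ∑ y ∈ T, (A w y : ℂ) * f y := by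
    have h7 : insert w T ⊆ univ := subset_univ _
    rw [← Finset.sum_subset h7, Finset.sum_insert hw]
    · congr 1
      · rw [HM_apply, if_pos rfl]
      · refine Finset.sum_congr rfl fun y hy => ?_
        have : w ≠ y := by rintro rfl; exact hw hy
        rw [HM_apply, if_neg this, add_zero]
    · intro y _ hy
      have h3 : y ≠ w := fun h => hy (by rw [h]; exact mem_insert_self _ _)
      have h4 : y ∉ T := fun h => hy (mem_insert_of_mem h)
      rw [HM_apply, if_neg (Ne.symm h3), hsepw y h4 h3]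
      simp
  have h8 : ∑ y ∈ T, (A w y : ℂ) * f y =
      -(∑ y, ∑ y', (A w y : ℂ) * RC A T u y y' * (A y' w : ℂ)) * f w +
        ∑ l ∈ L, phc A T w u l * f l := by
    have h9 : ∀ g : ι → ℂ, ∑ y, ∑ y', (A w y : ℂ) * RC A T u y y' * g y' =
        ∑ y ∈ T, ∑ y' ∈ T, (A w y : ℂ) * RC A T u y y' * g y' := by
      intro g
      rw [← Finset.sum_subset (subset_univ T)]
      · refine Finset.sum_congr rfl fun y _ => ?_
        rw [← Finset.sum_subset (subset_univ T)]
        intro y' _ hy'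
        rw [RC_right A u y hy']
        ring
      · intro y _ hy
        refine Finset.sum_eq_zero fun y' _ => ?_
        rw [RC_left A u hy]
        ring
    have h10 : ∑ y ∈ T, (A w y : ℂ) * f y = -∑ y ∈ T, ∑ y' ∈ T, (A w y : ℂ) * RC A T u y y' *
        ((A y' w : ℂ) * f w + ∑ l ∈ L, (A y' l : ℂ) * f l) := by
      rw [← Finset.sum_neg_distrib]
      refine Finset.sum_congr rfl fun y hy => ?_
      rw [h5 y hy, mul_neg, Finset.mul_sum]
      congr 1
      exact Finset.sum_congr rfl fun t _ => by ring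
    rw [h10, ← h9]
    unfold phc
    simp_rw [mul_add, Finset.sum_add_distrib]
    rw [neg_add, neg_mul]
    congr 1
    · rw [Finset.sum_mul]
      congr 1
      refine Finset.sum_congr rfl fun y _ => ?_
      rw [Finset.sum_mul]
      exact Finset.sum_congr rfl fun y' _ => by ring
    · simp_rw [neg_mul]
      rw [Finset.sum_neg_distrib]
      congr 1
      simp_rw [Finset.mul_sum, Finset.sum_mul]
      have h11 : ∀ y : ι, ∑ y', ∑ l ∈ L, (A w y : ℂ) * RC A T u y y' * ((A y' l : ℂ) * f l) =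
          ∑ l ∈ L, ∑ y', (A w y : ℂ) * RC A T u y y' * (A y' l : ℂ) * f l := by
        intro y
        rw [Finset.sum_comm]
        refine Finset.sum_congr rfl fun l _ => Finset.sum_congr rfl fun y' _ => by ring
      simp_rw [h11]
      rw [Finset.sum_comm]
  rw [h6, h8]
  unfold zec
  ring

/-- the imaginary part of the self energy is nonnegative -/
theorem zec_im_nonneg (hA : A.IsSymm) (hu : ∀ x ∈ T, (u x).im < 0) : 0 ≤ (zec A T w u).im := by
  have h1 : zec A T w u = -(A w w : ℂ) + ∑ x : T, ∑ y : T, (A w x : ℂ) *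
      GM (AT A T) (uT u T) x y * (A y w : ℂ) := by
    unfold zec
    congr 1
    rw [sum_T (T := T)]
    · refine Finset.sum_congr rfl fun x _ => ?_
      rw [sum_T (T := T)]
      · exact Finset.sum_congr rfl fun y _ => by rw [RC_mem]
      · intro y hy
        rw [RC_right A u _ hy]
        ring
    · intro x hx
      refine Finset.sum_eq_zero fun y _ => ?_
      rw [RC_left A u hx]
      ring
  have hW := ward (AT_symm (T := T) hA) (loss_uT hu)
  have h2 : (zec A T w u).im = ∑ x : T, ∑ y : T, A w x * (GM (AT A T) (uT u T) x y).im * A y w := by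
    rw [h1, Complex.add_im, Complex.neg_im, Complex.ofReal_im, neg_zero, zero_add, Complex.im_sum]
    refine Finset.sum_congr rfl fun x _ => ?_
    rw [Complex.im_sum]
    refine Finset.sum_congr rfl fun y _ => ?_
    rw [Complex.im_mul_ofReal, Complex.im_ofReal_mul]
  have h3 : (((zec A T w u).im : ℝ) : ℂ) =
      ∑ k : T, (((gam (uT u T) k * ‖∑ x : T, (A w x : ℂ) * GM (AT A T) (uT u T) k x‖ ^ 2 : ℝ)) : ℂ) := by
    have h4 : ∀ k : T, (((gam (uT u T) k * ‖∑ x : T, (A w x : ℂ) *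
        GM (AT A T) (uT u T) k x‖ ^ 2 : ℝ)) : ℂ) = ∑ x : T, ∑ y : T, (A w x : ℂ) *
        ((gam (uT u T) k : ℂ) * (starRingEnd ℂ) (GM (AT A T) (uT u T) x k) *
          GM (AT A T) (uT u T) k y) * (A y w : ℂ) := by
      intro k
      rw [Complex.ofReal_mul, ← Complex.normSq_eq_norm_sq, ← Complex.mul_conj, map_sum]
      rw [mul_comm (∑ x : T, _) (∑ x : T, _), Finset.sum_mul_sum, Finset.mul_sum]
      refine Finset.sum_congr rfl fun x _ => ?_
      rw [Finset.mul_sum]
      refine Finset.sum_congr rfl fun y _ => ?_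
      rw [map_mul, Complex.conj_ofReal, GM_symm (AT_symm (T := T) hA) (uT u T) k x,
        hA.apply w (y : ι)]
      ring
    simp_rw [h4]
    rw [h2, Complex.ofReal_sum]
    simp_rw [Complex.ofReal_sum, Complex.ofReal_mul, hW.im_eq]
    rw [Finset.sum_comm (s := (univ : Finset T)) (t := (univ : Finset T))]
    rw [Finset.sum_comm]
    have h5 : ∀ x : T, ∑ y : T, (A w x : ℂ) * (∑ k, (gam (uT u T) k : ℂ) *
        (starRingEnd ℂ) (GM (AT A T) (uT u T) x k) * GM (AT A T) (uT u T) k y) * (A y w : ℂ) =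
        ∑ k, ∑ y, (A w x : ℂ) * ((gam (uT u T) k : ℂ) *
        (starRingEnd ℂ) (GM (AT A T) (uT u T) x k) * GM (AT A T) (uT u T) k y) * (A y w : ℂ) := by
      intro x
      rw [Finset.sum_comm]
      refine Finset.sum_congr rfl fun y _ => ?_
      rw [Finset.mul_sum, Finset.sum_mul]
    simp_rw [h5]
    rw [Finset.sum_comm]
  rw [← Complex.ofReal_sum] at h3
  have h6 : (zec A T w u).im = ∑ k : T, gam (uT u T) k *
      ‖∑ x : T, (A w x : ℂ) * GM (AT A T) (uT u T) k x‖ ^ 2 := by exact_mod_cast h3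
  rw [h6]
  refine Finset.sum_nonneg fun k _ => mul_nonneg ?_ (sq_nonneg _)
  have := loss_uT (T := T) hu k
  unfold gam
  linarith

/-- the bound of the Green function at the centre of an absorbing gadget -/
theorem G_w_le (hA : A.IsSymm) (hu : Loss u) (hw : w ∉ T) {L : Finset ι}
    (hL : ∀ x ∈ L, x ∉ T ∧ x ≠ w)
    (hsep : ∀ x ∈ T, ∀ y, y ∉ T → y ≠ w → y ∉ L → A x y = 0)
    (hsepw : ∀ y, y ∉ T → y ≠ w → A w y = 0) {z : ι} (hz : z ∉ T) (hzw : z ≠ w) :
    gam u w ^ 2 * ‖GM A u z w‖ ^ 2 ≤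
      (∑ l ∈ L, ‖phc A T w u l‖ ^ 2) * ∑ l ∈ L, ‖GM A u z l‖ ^ 2 := by
  have hmul : ∀ x, ∑ y, HM A u x y * GM A u y z = if x = z then 1 else 0 := by
    intro x
    have := congrFun (congrFun (HM_mul_GM hA hu) x) z
    rw [Matrix.mul_apply, Matrix.one_apply] at this
    exact this
  have h1 := row_w (w := w) (f := fun y => GM A u y z) hA (fun x _ => hu x) hw hL hsep hsepw
    (fun x hx => by
      rw [hmul x, if_neg]
      rintro rfl
      exact hz hx)
  rw [hmul w, if_neg (Ne.symm hzw)] at h1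
  have h2 : (u w - zec A T w u) * GM A u w z = -∑ l ∈ L, phc A T w u l * GM A u l z := by
    linear_combination -h1
  have h3 : gam u w ≤ ‖u w - zec A T w u‖ := by
    have h4 := Complex.abs_im_le_norm (u w - zec A T w u)
    have h5 := zec_im_nonneg (A := A) (T := T) (w := w) hA (fun x _ => hu x)
    have h6 : gam u w ≤ |(u w - zec A T w u).im| := by
      rw [Complex.sub_im]
      refine le_trans ?_ (neg_le_abs _)
      unfold gam
      linarith
    exact h6.trans h4
  have h7 : 0 < gam u w := gam_pos hu w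
  have h8 : gam u w * ‖GM A u z w‖ ≤ ∑ l ∈ L, ‖phc A T w u l‖ * ‖GM A u z l‖ := by
    calc gam u w * ‖GM A u z w‖ ≤ ‖u w - zec A T w u‖ * ‖GM A u z w‖ :=
          mul_le_mul_of_nonneg_right h3 (norm_nonneg _)
      _ = ‖(u w - zec A T w u) * GM A u w z‖ := by rw [norm_mul, GM_symm hA u z w]
      _ ≤ ∑ l ∈ L, ‖phc A T w u l * GM A u l z‖ := by
          rw [h2, norm_neg]
          exact norm_sum_le _ _
      _ = ∑ l ∈ L, ‖phc A T w u l‖ * ‖GM A u z l‖ :=
          Finset.sum_congr rfl fun l _ => by rw [norm_mul, GM_symm hA u z l]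
  calc gam u w ^ 2 * ‖GM A u z w‖ ^ 2 = (gam u w * ‖GM A u z w‖) ^ 2 := by ring
    _ ≤ (∑ l ∈ L, ‖phc A T w u l‖ * ‖GM A u z l‖) ^ 2 := by
        have : 0 ≤ gam u w * ‖GM A u z w‖ := by positivity
        gcongr
    _ ≤ _ := Finset.sum_mul_sq_le_sq_mul_sq _ _ _

end Pool.Agent.Lib.MP_562b47_mp.EC
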