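import Pool.Agent.Lib.MP_562b47_mp.EC.Act
import Pool.Agent.Lib.MP_562b47_mp.EC.Elim

/-!
MP_562b47, section 5, part 2: the share of an active gadget is bounded by the shares of its port
sites in the world where the gadget is inactive.
-/

open Matrix Finset MeasureTheory

set_option linter.unusedSectionVars false

namespace Pool.Agent.Lib.MP_562b47_mp.EC

open Pool.Agent.Lib.MP_562b47_mp.AL Pool.Agent.Lib.MP_562b47_mp

variable {ι κ : Type*} [Fintype ι] [DecidableEq ι] [Fintype κ]
variable {A : Matrix ι ι ℝ} {T : Finset ι} {u : ι → ℂ} {w : ι}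

theorem ff_le_two (ξ : κ → ι → ℝ) (x y z : ι) : ff ξ x z ≤ 2 * ff ξ x y + 2 * ff ξ y z := by
  unfold ff
  rw [mul_sum, mul_sum, ← sum_add_distrib]
  refine sum_le_sum fun j _ => ?_
  nlinarith [sq_nonneg ((ξ j x - ξ j y) - (ξ j y - ξ j z))]

/-- `Y_l` without the term of the centre `w` -/
noncomputable def Yp (A : Matrix ι ι ℝ) (ξ : κ → ι → ℝ) (u : ι → ℂ) (w l : ι) : ℝ :=
  ∑ x ∈ univ.erase w, gam u x * ff ξ x l * ‖GM A u x l‖ ^ 2

theorem Yp_nonneg (hu : Loss u) (ξ : κ → ι → ℝ) (w l : ι) : 0 ≤ Yp A ξ u w l :=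
  sum_nonneg fun x _ => mul_nonneg (mul_nonneg (gam_pos hu x).le (ff_nonneg ξ x l)) (sq_nonneg _)

/-- `2 γ_l Y_l ≤ share_l` -/
theorem Yp_le_share (hu : Loss u) (ξ : κ → ι → ℝ) (w l : ι) :
    2 * gam u l * Yp A ξ u w l ≤ share A ξ u l := by
  unfold Yp share
  have hl := gam_pos hu l
  refine mul_le_mul_of_nonneg_left ?_ (by linarith)
  exact sum_le_sum_of_subset_of_nonneg (subset_univ _) fun x _ _ =>
    mul_nonneg (mul_nonneg (gam_pos hu x).le (ff_nonneg ξ x l)) (sq_nonneg _)

/-- `∑ γ_x |G_xl|² ≤ 1/γ_l` -/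
theorem col_le' (hA : A.IsSymm) (hu : Loss u) (l : ι) :
    ∑ x, gam u x * ‖GM A u x l‖ ^ 2 ≤ 1 / gam u l := by
  rw [le_div_iff₀ (gam_pos hu l), mul_comm]
  exact col_le hA hu l

/-- THE SHARE OF THE CENTRE: geometric elimination of the inner block -/
theorem share_w_le (hA : A.IsSymm) (hu : Loss u) (ξ : κ → ι → ℝ) (hw : w ∉ T) {L : Finset ι}
    (hL : ∀ x ∈ L, x ∉ T ∧ x ≠ w)
    (hsep : ∀ x ∈ T, ∀ y, y ∉ T → y ≠ w → y ∉ L → A x y = 0)
    (hsepw : ∀ y, y ∉ T → y ≠ w → A w y = 0) {P dm a : ℝ} (ha : 0 < a)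
    (hP : ∑ l ∈ L, ‖phc A T w u l‖ ^ 2 ≤ P)
    (hdT : ∀ x ∈ T, ff ξ x w ≤ dm) (hdL : ∀ l ∈ L, ff ξ l w ≤ dm) (hdm : 0 ≤ dm)
    (hgL : ∀ l ∈ L, gam u l = a) :
    share A ξ u w ≤ 2 * dm + 4 * P / gam u w * (∑ l ∈ L, Yp A ξ u w l + L.card * (dm / a)) := by
  have hgw := gam_pos hu w
  have hP0 : 0 ≤ P := le_trans (sum_nonneg fun l _ => sq_nonneg _) hP
  set F : ι → ℝ := fun x => 2 * gam u w * (gam u x * ff ξ x w * ‖GM A u x w‖ ^ 2) with hF
  have h0 : share A ξ u w = ∑ x, F x := by
    rw [share, mul_sum]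
  have h1 : ∑ x, F x = ∑ x ∈ T, F x + ∑ x ∈ (univ \ T).erase w, F x := by
    rw [← sum_sdiff (subset_univ T), add_comm]
    congr 1
    rw [← add_sum_erase (univ \ T) F (mem_sdiff.mpr ⟨mem_univ w, hw⟩)]
    have : F w = 0 := by rw [hF]; simp [ff_self]
    rw [this, zero_add]
  -- near part
  have h2 : ∑ x ∈ T, F x ≤ 2 * dm := by
    have h3 : ∀ x ∈ T, F x ≤ 2 * dm * (gam u w * (gam u x * ‖GM A u x w‖ ^ 2)) := by
      intro x hx
      have h4 : 0 ≤ gam u w * (gam u x * ‖GM A u x w‖ ^ 2) :=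
        mul_nonneg hgw.le (mul_nonneg (gam_pos hu x).le (sq_nonneg _))
      calc F x = 2 * ff ξ x w * (gam u w * (gam u x * ‖GM A u x w‖ ^ 2)) := by rw [hF]; ring
        _ ≤ 2 * dm * (gam u w * (gam u x * ‖GM A u x w‖ ^ 2)) := by
            refine mul_le_mul_of_nonneg_right ?_ h4
            linarith [hdT x hx]
    calc ∑ x ∈ T, F x ≤ ∑ x ∈ T, 2 * dm * (gam u w * (gam u x * ‖GM A u x w‖ ^ 2)) :=
          sum_le_sum h3
      _ ≤ ∑ x, 2 * dm * (gam u w * (gam u x * ‖GM A u x w‖ ^ 2)) :=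
          sum_le_sum_of_subset_of_nonneg (subset_univ _) fun x _ _ =>
            mul_nonneg (by linarith) (mul_nonneg hgw.le (mul_nonneg (gam_pos hu x).le (sq_nonneg _)))
      _ = 2 * dm * (gam u w * ∑ x, gam u x * ‖GM A u x w‖ ^ 2) := by
          rw [mul_sum, mul_sum]
      _ ≤ 2 * dm * 1 := mul_le_mul_of_nonneg_left (col_le hA hu w) (by linarith)
      _ = 2 * dm := mul_one _
  -- far part
  have h5 : ∀ x ∈ (univ \ T).erase w, F x ≤
      4 * P / gam u w * ∑ l ∈ L, (gam u x * ff ξ x l * ‖GM A u x l‖ ^ 2 +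
        dm * (gam u x * ‖GM A u x l‖ ^ 2)) := by
    intro x hx
    have hxw : x ≠ w := (mem_erase.mp hx).1
    have hxT : x ∉ T := (mem_sdiff.mp (mem_erase.mp hx).2).2
    have h6 := G_w_le hA hu hw hL hsep hsepw hxT hxw
    have h7 : gam u w ^ 2 * ‖GM A u x w‖ ^ 2 ≤ P * ∑ l ∈ L, ‖GM A u x l‖ ^ 2 :=
      h6.trans (mul_le_mul_of_nonneg_right hP (sum_nonneg fun l _ => sq_nonneg _))
    have h8 : F x = 2 / gam u w * (gam u x * ff ξ x w) * (gam u w ^ 2 * ‖GM A u x w‖ ^ 2) := by
      rw [hF]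
      field_simp
    have h9 : 0 ≤ gam u x * ff ξ x w := mul_nonneg (gam_pos hu x).le (ff_nonneg ξ x w)
    calc F x ≤ 2 / gam u w * (gam u x * ff ξ x w) * (P * ∑ l ∈ L, ‖GM A u x l‖ ^ 2) := by
          rw [h8]
          exact mul_le_mul_of_nonneg_left h7 (mul_nonneg (by positivity) h9)
      _ = 2 * P / gam u w * ∑ l ∈ L, gam u x * ff ξ x w * ‖GM A u x l‖ ^ 2 := by
          simp_rw [mul_sum]
          refine sum_congr rfl fun l _ => ?_
          ring
      _ ≤ 2 * P / gam u w * ∑ l ∈ L, 2 * (gam u x * ff ξ x l * ‖GM A u x l‖ ^ 2 +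
            dm * (gam u x * ‖GM A u x l‖ ^ 2)) := by
          refine mul_le_mul_of_nonneg_left (sum_le_sum fun l hl => ?_) (by positivity)
          have h10 : ff ξ x w ≤ 2 * ff ξ x l + 2 * dm :=
            (ff_le_two ξ x l w).trans (by linarith [hdL l hl])
          have h11 : 0 ≤ gam u x * ‖GM A u x l‖ ^ 2 :=
            mul_nonneg (gam_pos hu x).le (sq_nonneg _)
          calc gam u x * ff ξ x w * ‖GM A u x l‖ ^ 2 =
              ff ξ x w * (gam u x * ‖GM A u x l‖ ^ 2) := by ring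
            _ ≤ (2 * ff ξ x l + 2 * dm) * (gam u x * ‖GM A u x l‖ ^ 2) :=
                mul_le_mul_of_nonneg_right h10 h11
            _ = _ := by ring
      _ = _ := by rw [← mul_sum]; ring
  have h12 : ∑ x ∈ (univ \ T).erase w, F x ≤
      4 * P / gam u w * (∑ l ∈ L, Yp A ξ u w l + L.card * (dm / a)) := by
    have hc : 0 ≤ 4 * P / gam u w := by positivity
    calc ∑ x ∈ (univ \ T).erase w, F x ≤ ∑ x ∈ (univ \ T).erase w, 4 * P / gam u w *
          ∑ l ∈ L, (gam u x * ff ξ x l * ‖GM A u x l‖ ^ 2 +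
            dm * (gam u x * ‖GM A u x l‖ ^ 2)) := sum_le_sum h5
      _ ≤ ∑ x ∈ univ.erase w, 4 * P / gam u w *
          ∑ l ∈ L, (gam u x * ff ξ x l * ‖GM A u x l‖ ^ 2 +
            dm * (gam u x * ‖GM A u x l‖ ^ 2)) := by
          refine sum_le_sum_of_subset_of_nonneg
            (erase_subset_erase _ (subset_univ _)) fun x _ _ => ?_
          refine mul_nonneg hc (sum_nonneg fun l _ => add_nonneg ?_ ?_)
          · exact mul_nonneg (mul_nonneg (gam_pos hu x).le (ff_nonneg ξ x l)) (sq_nonneg _)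
          · exact mul_nonneg hdm (mul_nonneg (gam_pos hu x).le (sq_nonneg _))
      _ = 4 * P / gam u w * ∑ l ∈ L, (Yp A ξ u w l +
          dm * ∑ x ∈ univ.erase w, gam u x * ‖GM A u x l‖ ^ 2) := by
          rw [← mul_sum, sum_comm]
          congr 1
          refine sum_congr rfl fun l _ => ?_
          rw [sum_add_distrib, Yp, mul_sum]
      _ ≤ 4 * P / gam u w * ∑ l ∈ L, (Yp A ξ u w l + dm / a) := by
          refine mul_le_mul_of_nonneg_left (sum_le_sum fun l hl => ?_) hc
          have h13 : ∑ x ∈ univ.erase w, gam u x * ‖GM A u x l‖ ^ 2 ≤ 1 / a := by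
            rw [← hgL l hl]
            refine le_trans ?_ (col_le' hA hu l)
            exact sum_le_sum_of_subset_of_nonneg (subset_univ _) fun x _ _ =>
              mul_nonneg (gam_pos hu x).le (sq_nonneg _)
          have h14 := mul_le_mul_of_nonneg_left h13 hdm
          rw [mul_one_div] at h14
          linarith
      _ = _ := by rw [sum_add_distrib, sum_const, nsmul_eq_mul]
  rw [h0, h1]
  linarith

theorem gam_update_ne (u : ι → ℂ) {s x : ι} (v : ℂ) (h : x ≠ s) :
    gam (Function.update u s v) x = gam u x := by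
  simp [gam, Function.update_of_ne h]

/-- `Y_l` of the active world against the shares of the port sites of the inactive world -/
theorem Yp_act_le (hA : A.IsSymm) (hu : LossOff u w) (ξ : κ → ι → ℝ) (ζ : ℝ) {a g r : ℝ}
    (ha : 0 < a) (hg : 0 < g) (hgr : g ≤ r) {l : ι} (hl : l ≠ w) (hgl : gam u l = a) :
    Yp A ξ (Function.update u w (ζ - g * Complex.I - a * Complex.I)) w l ≤
      KC / (2 * a) * ∫ v : ℝ, SL.ff g r v *
        share A ξ (Function.update u w (ζ + v - a * Complex.I)) l := by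
  have hr : 0 < r := hg.trans_le hgr
  have hcont : ∀ x t : ι, Continuous fun v : ℝ =>
      ‖GM A (Function.update u w (ζ + v - a * Complex.I)) x t‖ ^ 2 := fun x t =>
    (continuous_G_inact hA hu ζ ha x t).norm.pow 2
  have hint : ∀ x t : ι, Integrable fun v : ℝ => SL.ff g r v *
      ‖GM A (Function.update u w (ζ + v - a * Complex.I)) x t‖ ^ 2 := fun x t =>
    SL.integrable_ff_mul_real hg hr hgr (hcont x t)
  have hloss : ∀ v : ℝ, Loss (Function.update u w (ζ + v - a * Complex.I)) := fun v =>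
    loss_update hu (by simp; exact ha)
  have hK : (0:ℝ) ≤ KC := by unfold KC; norm_num
  -- pointwise in `v`
  have h1 : ∀ v : ℝ, SL.ff g r v * Yp A ξ (Function.update u w (ζ + v - a * Complex.I)) w l ≤
      1 / (2 * a) * (SL.ff g r v * share A ξ (Function.update u w (ζ + v - a * Complex.I)) l) := by
    intro v
    have h2 := Yp_le_share (A := A) (hloss v) ξ w l
    rw [gam_update_ne u _ hl, hgl] at h2
    have h3 : Yp A ξ (Function.update u w (ζ + v - a * Complex.I)) w l ≤
        1 / (2 * a) * share A ξ (Function.update u w (ζ + v - a * Complex.I)) l := by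
      rw [one_div, ← div_eq_inv_mul, le_div_iff₀ (by positivity)]
      linarith
    calc SL.ff g r v * Yp A ξ (Function.update u w (ζ + v - a * Complex.I)) w l ≤
        SL.ff g r v * (1 / (2 * a) *
          share A ξ (Function.update u w (ζ + v - a * Complex.I)) l) :=
          mul_le_mul_of_nonneg_left h3 (SL.ff_nonneg hg hr v)
      _ = _ := by ring
  -- the continuity of the share
  have hsh : Continuous fun v : ℝ =>
      share A ξ (Function.update u w (ζ + v - a * Complex.I)) l := by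
    have h4 : (fun v : ℝ => share A ξ (Function.update u w (ζ + v - a * Complex.I)) l) =
        fun v : ℝ => 2 * a * ∑ x, gam (Function.update u w (-a * Complex.I)) x * ff ξ x l *
          ‖GM A (Function.update u w (ζ + v - a * Complex.I)) x l‖ ^ 2 := by
      funext v
      rw [share, gam_update_ne u _ hl, hgl]
      congr 1
      refine sum_congr rfl fun x _ => ?_
      by_cases hx : x = w
      · subst hx
        simp [gam]
      · rw [gam_update_ne u _ hx, gam_update_ne u _ hx]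
    rw [h4]
    exact continuous_const.mul (continuous_finset_sum _ fun x _ =>
      continuous_const.mul (hcont x l))
  have hi2 : Integrable fun v : ℝ => SL.ff g r v *
      share A ξ (Function.update u w (ζ + v - a * Complex.I)) l :=
    SL.integrable_ff_mul_real hg hr hgr hsh
  have h5 : ∀ v : ℝ, SL.ff g r v * Yp A ξ (Function.update u w (ζ + v - a * Complex.I)) w l =
      ∑ x ∈ univ.erase w, gam u x * ff ξ x l *
        (SL.ff g r v * ‖GM A (Function.update u w (ζ + v - a * Complex.I)) x l‖ ^ 2) := by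
    intro v
    rw [Yp, mul_sum]
    refine sum_congr rfl fun x hx => ?_
    rw [gam_update_ne u _ (mem_erase.mp hx).1]
    ring
  have hi1 : Integrable fun v : ℝ => SL.ff g r v *
      Yp A ξ (Function.update u w (ζ + v - a * Complex.I)) w l := by
    have h6 : (fun v : ℝ => SL.ff g r v *
        Yp A ξ (Function.update u w (ζ + v - a * Complex.I)) w l) = fun v : ℝ =>
        ∑ x ∈ univ.erase w, gam u x * ff ξ x l *
        (SL.ff g r v * ‖GM A (Function.update u w (ζ + v - a * Complex.I)) x l‖ ^ 2) :=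
      funext h5
    rw [h6]
    exact integrable_finset_sum _ fun x _ => (hint x l).const_mul _
  have h7 : Yp A ξ (Function.update u w (ζ - g * Complex.I - a * Complex.I)) w l ≤
      KC * ∫ v : ℝ, SL.ff g r v *
        Yp A ξ (Function.update u w (ζ + v - a * Complex.I)) w l := by
    have h8 : ∫ v : ℝ, SL.ff g r v *
        Yp A ξ (Function.update u w (ζ + v - a * Complex.I)) w l =
        ∑ x ∈ univ.erase w, gam u x * ff ξ x l * ∫ v : ℝ, SL.ff g r v *
          ‖GM A (Function.update u w (ζ + v - a * Complex.I)) x l‖ ^ 2 := by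
      rw [integral_congr_ae (Filter.Eventually.of_forall h5),
        integral_finset_sum _ fun x _ => (hint x l).const_mul _]
      exact sum_congr rfl fun x _ => integral_const_mul _ _
    rw [h8, mul_sum, Yp]
    refine sum_le_sum fun x hx => ?_
    have hxw := (mem_erase.mp hx).1
    rw [gam_update_ne u _ hxw]
    have h9 := GM_act_le hA hu ζ ha hg hgr x l
    have h10 : 0 ≤ gam u x * ff ξ x l := by
      refine mul_nonneg ?_ (ff_nonneg ξ x l)
      have := hu x hxw
      unfold gam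
      linarith
    calc gam u x * ff ξ x l *
          ‖GM A (Function.update u w (ζ - g * Complex.I - a * Complex.I)) x l‖ ^ 2
        ≤ gam u x * ff ξ x l * (KC * ∫ v : ℝ, SL.ff g r v *
          ‖GM A (Function.update u w (ζ + v - a * Complex.I)) x l‖ ^ 2) :=
          mul_le_mul_of_nonneg_left h9 h10
      _ = _ := by ring
  refine h7.trans ?_
  have h11 := integral_mono hi1 (hi2.const_mul (1 / (2 * a))) h1
  rw [integral_const_mul] at h11
  calc KC * ∫ v : ℝ, SL.ff g r v *
        Yp A ξ (Function.update u w (ζ + v - a * Complex.I)) w l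
      ≤ KC * (1 / (2 * a) * ∫ v : ℝ, SL.ff g r v *
        share A ξ (Function.update u w (ζ + v - a * Complex.I)) l) :=
        mul_le_mul_of_nonneg_left h11 hK
    _ = _ := by ring

/-- the share as a function of the inactive potential is continuous -/
theorem continuous_share_inact (hA : A.IsSymm) (hu : LossOff u w) (ξ : κ → ι → ℝ) (ζ : ℝ)
    {a : ℝ} (ha : 0 < a) {l : ι} (hl : l ≠ w) : Continuous fun v : ℝ =>
      share A ξ (Function.update u w (ζ + v - a * Complex.I)) l := by
  have h4 : (fun v : ℝ => share A ξ (Function.update u w (ζ + v - a * Complex.I)) l) =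
      fun v : ℝ => 2 * gam u l * ∑ x, gam (Function.update u w (-a * Complex.I)) x * ff ξ x l *
        ‖GM A (Function.update u w (ζ + v - a * Complex.I)) x l‖ ^ 2 := by
    funext v
    rw [share, gam_update_ne u _ hl]
    congr 1
    refine sum_congr rfl fun x _ => ?_
    by_cases hx : x = w
    · subst hx
      simp [gam]
    · rw [gam_update_ne u _ hx, gam_update_ne u _ hx]
  rw [h4]
  exact continuous_const.mul (continuous_finset_sum _ fun x _ =>
    continuous_const.mul ((continuous_G_inact hA hu ζ ha x l).norm.pow 2))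

/-- SECTION 5, deterministic form: the share of an active gadget is bounded by the mean shares of
its port sites in the world where it is inactive. -/
theorem share_act_le (hA : A.IsSymm) (hu : LossOff u w) (ξ : κ → ι → ℝ) (ζ : ℝ) {a g r lw dm : ℝ}
    (ha : 0 < a) (hg : 0 < g) (hgr : g ≤ r) (hlw : 0 ≤ lw) (hw : w ∉ T) {L : Finset ι}
    (hL : ∀ x ∈ L, x ∉ T ∧ x ≠ w)
    (hsep : ∀ x ∈ T, ∀ y, y ∉ T → y ≠ w → y ∉ L → A x y = 0)
    (hsepw : ∀ y, y ∉ T → y ≠ w → A w y = 0)
    (hP : ∑ l ∈ L, ‖phc A T w u l‖ ^ 2 ≤ 2 * g * lw)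
    (hdT : ∀ x ∈ T, ff ξ x w ≤ dm) (hdL : ∀ l ∈ L, ff ξ l w ≤ dm) (hdm : 0 ≤ dm)
    (hgL : ∀ l ∈ L, gam u l = a) :
    share A ξ (Function.update u w (ζ - g * Complex.I - a * Complex.I)) w ≤
      2 * dm + 8 * lw * (L.card * (dm / a)) + 4 * KC * lw / a * ∑ l ∈ L,
        ∫ v : ℝ, SL.ff g r v *
          share A ξ (Function.update u w (ζ + v - a * Complex.I)) l := by
  set ua := Function.update u w ((ζ : ℂ) - g * Complex.I - a * Complex.I) with hua
  have hlossa : Loss ua := loss_update hu (by simp; linarith)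
  have h1 : ∀ x ∈ T, ua x = u x := fun x hx => by
    rw [hua, Function.update_of_ne]
    rintro rfl
    exact hw hx
  have h2 : ∑ l ∈ L, ‖phc A T w ua l‖ ^ 2 ≤ 2 * g * lw := by
    simp_rw [phc_congr A w h1]
    exact hP
  have h3 : ∀ l ∈ L, gam ua l = a := fun l hl => by
    rw [hua, gam_update_ne u _ (hL l hl).2, hgL l hl]
  have h4 := share_w_le hA hlossa ξ hw hL hsep hsepw ha h2 hdT hdL hdm h3
  have hgw : gam ua w = g + a := by
    rw [hua]
    simp [gam]
    ring
  rw [hgw] at h4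
  have h5 : 4 * (2 * g * lw) / (g + a) ≤ 8 * lw := by
    rw [div_le_iff₀ (by linarith)]
    nlinarith
  have h6 : 0 ≤ ∑ l ∈ L, Yp A ξ ua w l := sum_nonneg fun l _ => Yp_nonneg hlossa ξ w l
  have h7 : 0 ≤ (L.card : ℝ) * (dm / a) := by positivity
  have h8 : ∑ l ∈ L, Yp A ξ ua w l ≤ ∑ l ∈ L, (KC / (2 * a) * ∫ v : ℝ, SL.ff g r v *
      share A ξ (Function.update u w (ζ + v - a * Complex.I)) l) :=
    sum_le_sum fun l hl => Yp_act_le hA hu ξ ζ ha hg hgr (hL l hl).2 (hgL l hl)
  rw [← mul_sum] at h8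
  calc share A ξ ua w ≤ 2 * dm + 4 * (2 * g * lw) / (g + a) *
        (∑ l ∈ L, Yp A ξ ua w l + L.card * (dm / a)) := h4
    _ ≤ 2 * dm + 8 * lw * (∑ l ∈ L, Yp A ξ ua w l + L.card * (dm / a)) := by
        have := mul_le_mul_of_nonneg_right h5 (add_nonneg h6 h7)
        linarith
    _ ≤ 2 * dm + 8 * lw * ((KC / (2 * a) * ∑ l ∈ L, ∫ v : ℝ, SL.ff g r v *
        share A ξ (Function.update u w (ζ + v - a * Complex.I)) l) + L.card * (dm / a)) := by
        have := mul_le_mul_of_nonneg_left h8 (by linarith : 0 ≤ 8 * lw)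
        linarith
    _ = _ := by
        have : a ≠ 0 := ha.ne'
        field_simp
        ring

end Pool.Agent.Lib.MP_562b47_mp.EC
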